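import Pool.Agent.Helper23M.Null

/-!
The group of a closed affine manifold with parallel volume of dimension `n` does not act on a sharp
convex cone of dimension at most `n` in a projectively proper way.
-/

set_option autoImplicit false

open Set Filter Topology MeasureTheory Metric
open scoped ENNReal NNReal
open Pool.Agent.W689.Mk Pool.Agent.Helper23M

namespace Pool.Agent.Helper23N

section cone
variable {V : Type} [NormedAddCommGroup V] [NormedSpace ℝ V]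

/-- sharp open convex cones -/
structure SCone (C : Set V) : Prop where
  open' : IsOpen C
  convex : Convex ℝ C
  smul : ∀ v ∈ C, ∀ t : ℝ, 0 < t → t • v ∈ C
  nonempty : C.Nonempty
  sharp : ∀ v, v ∈ closure C → -v ∈ closure C → v = 0

variable {C : Set V}

theorem SCone.zero_notMem [Nontrivial V] (hC : SCone C) : (0 : V) ∉ C := by
  intro h0
  obtain ⟨v, hv⟩ := exists_ne (0 : V)
  obtain ⟨r, hr, hball⟩ := Metric.isOpen_iff.1 hC.open' 0 h0
  have hv0 : 0 < ‖v‖ := norm_pos_iff.2 hv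
  have key : ∀ w : V, ‖w‖ = ‖v‖ → (r / (2 * ‖v‖)) • w ∈ C := by
    intro w hw
    apply hball
    rw [mem_ball_zero_iff, norm_smul, hw, Real.norm_eq_abs, abs_of_pos (by positivity)]
    have : r / (2 * ‖v‖) * ‖v‖ = r / 2 := by field_simp
    rw [this]; linarith
  have h1 := key v rfl
  have h2 := key (-v) (norm_neg v)
  rw [smul_neg] at h2
  have h3 := hC.sharp _ (subset_closure h1) (subset_closure h2)
  have h4 : r / (2 * ‖v‖) ≠ 0 := by positivity
  exact hv ((smul_eq_zero.1 h3).resolve_left h4)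

/-- the norm is monotone up to a constant -/
theorem SCone.mono [FiniteDimensional ℝ V] (hC : SCone C) :
    ∃ M : ℝ, 0 < M ∧ ∀ x ∈ C, ∀ y ∈ C, ‖x‖ ≤ M * ‖x + y‖ := by
  have : ProperSpace V := FiniteDimensional.proper ℝ V
  let K : Set (V × V) := (closure C ∩ sphere 0 1) ×ˢ (closure C ∩ closedBall 0 2)
  have hK : IsCompact K :=
    ((isCompact_sphere 0 1).inter_left isClosed_closure).prod
      ((isCompact_closedBall 0 2).inter_left isClosed_closure)
  have hpos : ∀ q ∈ K, 0 < ‖q.1 + q.2‖ := by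
    rintro ⟨x, y⟩ ⟨⟨hx, hx1⟩, ⟨hy, -⟩⟩
    rw [norm_pos_iff]
    intro h0
    have hyx : y = -x := by
      have h0' : x + y = 0 := h0
      exact eq_neg_of_add_eq_zero_right h0'
    have h1 : x = 0 := hC.sharp x hx (by rw [← hyx]; exact hy)
    rw [h1, mem_sphere_zero_iff_norm, norm_zero] at hx1
    exact zero_ne_one hx1
  obtain ⟨m, hm0, hm⟩ : ∃ m : ℝ, 0 < m ∧ ∀ q ∈ K, m ≤ ‖q.1 + q.2‖ := by
    rcases K.eq_empty_or_nonempty with h | h
    · exact ⟨1, one_pos, fun q hq => by rw [h] at hq; exact hq.elim⟩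
    · obtain ⟨q0, hq0, hmin⟩ := hK.exists_isMinOn h
        (f := fun q : V × V => ‖q.1 + q.2‖) (by fun_prop)
      exact ⟨_, hpos q0 hq0, fun q hq => hmin hq⟩
  refine ⟨max 1 m⁻¹, lt_max_of_lt_left one_pos, fun x hx y hy => ?_⟩
  rcases eq_or_ne x 0 with rfl | hx0
  · rw [norm_zero]; positivity
  have hnx : 0 < ‖x‖ := norm_pos_iff.2 hx0
  have hx' : ‖x‖⁻¹ • x ∈ closure C ∩ sphere 0 1 := by
    refine ⟨subset_closure (hC.smul x hx _ (by positivity)), ?_⟩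
    rw [mem_sphere_zero_iff_norm, norm_smul, norm_inv, norm_norm, inv_mul_cancel₀ hnx.ne']
  have hsum : ‖‖x‖⁻¹ • x + ‖x‖⁻¹ • y‖ = ‖x‖⁻¹ * ‖x + y‖ := by
    rw [← smul_add, norm_smul, norm_inv, norm_norm]
  have h1 : 1 ≤ max 1 m⁻¹ * (‖x‖⁻¹ * ‖x + y‖) := by
    by_cases hy2 : ‖‖x‖⁻¹ • y‖ ≤ 2
    · have h2 := hm (‖x‖⁻¹ • x, ‖x‖⁻¹ • y)
        ⟨hx', subset_closure (hC.smul y hy _ (by positivity)), mem_closedBall_zero_iff.2 hy2⟩
      have h3 : m ≤ ‖x‖⁻¹ * ‖x + y‖ := by rw [← hsum]; exact h2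
      calc (1 : ℝ) = m⁻¹ * m := (inv_mul_cancel₀ hm0.ne').symm
        _ ≤ max 1 m⁻¹ * (‖x‖⁻¹ * ‖x + y‖) := by
            gcongr
            exact le_max_right _ _
    · push Not at hy2
      have h2 : 1 ≤ ‖‖x‖⁻¹ • x + ‖x‖⁻¹ • y‖ := by
        have h3 : ‖‖x‖⁻¹ • y‖ ≤ ‖‖x‖⁻¹ • x + ‖x‖⁻¹ • y‖ + ‖‖x‖⁻¹ • x‖ := by
          have := norm_sub_le (‖x‖⁻¹ • x + ‖x‖⁻¹ • y) (‖x‖⁻¹ • x)
          rwa [add_sub_cancel_left] at this
        have h4 : ‖‖x‖⁻¹ • x‖ = 1 := mem_sphere_zero_iff_norm.1 hx'.2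
        linarith
      rw [hsum] at h2
      calc (1 : ℝ) ≤ 1 * (‖x‖⁻¹ * ‖x + y‖) := by rw [one_mul]; exact h2
        _ ≤ max 1 m⁻¹ * (‖x‖⁻¹ * ‖x + y‖) := by
            have : 0 ≤ ‖x‖⁻¹ * ‖x + y‖ := by positivity
            gcongr
            exact le_max_left _ _
  calc ‖x‖ = ‖x‖ * 1 := (mul_one _).symm
    _ ≤ ‖x‖ * (max 1 m⁻¹ * (‖x‖⁻¹ * ‖x + y‖)) := by gcongr
    _ = max 1 m⁻¹ * ‖x + y‖ := by field_simp

/-- the distance from the complement -/
noncomputable def kp (C : Set V) (c : V) : ℝ := infDist c Cᶜ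

theorem kp_smul_le (hC : SCone C) [Nontrivial V] (c : V) {t : ℝ} (ht : 0 < t) :
    t * kp C c ≤ kp C (t • c) := by
  have hne : (Cᶜ).Nonempty := ⟨0, hC.zero_notMem⟩
  unfold kp
  rw [le_infDist hne]
  intro y hy
  have h1 : t⁻¹ • y ∈ Cᶜ := by
    intro h
    apply hy
    have := hC.smul _ h t ht
    rwa [smul_smul, mul_inv_cancel₀ ht.ne', one_smul] at this
  have h2 : infDist c Cᶜ ≤ dist c (t⁻¹ • y) := infDist_le_dist_of_mem h1
  calc t * infDist c Cᶜ ≤ t * dist c (t⁻¹ • y) := by gcongr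
    _ = dist (t • c) y := by
        have h3 : t • c - y = t • (c - t⁻¹ • y) := by
          rw [smul_sub, smul_smul, mul_inv_cancel₀ ht.ne', one_smul]
        rw [dist_eq_norm, dist_eq_norm, h3, norm_smul, Real.norm_eq_abs, abs_of_pos ht]

theorem kp_smul (hC : SCone C) [Nontrivial V] (c : V) {t : ℝ} (ht : 0 < t) :
    kp C (t • c) = t * kp C c := by
  refine le_antisymm ?_ (kp_smul_le hC c ht)
  have h1 := kp_smul_le hC (t • c) (inv_pos.2 ht)
  rw [smul_smul, inv_mul_cancel₀ ht.ne', one_smul] at h1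
  calc kp C (t • c) = t * (t⁻¹ * kp C (t • c)) := by field_simp
    _ ≤ t * kp C c := by gcongr

theorem kp_pos (hC : SCone C) [Nontrivial V] {c : V} (hc : c ∈ C) : 0 < kp C c := by
  have hne : (Cᶜ).Nonempty := ⟨0, hC.zero_notMem⟩
  have hcl : IsClosed (Cᶜ) := hC.open'.isClosed_compl
  exact (hcl.notMem_iff_infDist_pos hne).1 (by simpa using hc)

theorem kp_ball {c v : V} (hv : ‖v‖ < kp C c) : c + v ∈ C := by
  by_contra hcon
  have h1 : infDist c Cᶜ ≤ dist c (c + v) := infDist_le_dist_of_mem hcon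
  rw [dist_eq_norm, sub_add_cancel_left, norm_neg] at h1
  exact absurd hv (not_lt.2 h1)

theorem kp_lip (C : Set V) (x y : V) : |kp C x - kp C y| ≤ ‖x - y‖ := by
  have := (lipschitz_infDist_pt (Cᶜ : Set V)).dist_le_mul x y
  rw [Real.dist_eq, dist_eq_norm] at this
  unfold kp
  simpa using this

theorem kp_cont (C : Set V) : Continuous (kp C) := continuous_infDist_pt _

/-- maps preserving the cone are controlled by their value at one point -/
theorem norm_le_of_cone {M : ℝ} (hM0 : 0 < M)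
    (hM : ∀ x ∈ C, ∀ y ∈ C, ‖x‖ ≤ M * ‖x + y‖) {B : V →L[ℝ] V} (hB : ∀ c ∈ C, B c ∈ C)
    {c : V} (hk : 0 < kp C c) : ‖B‖ ≤ 2 * (2 * M + 1) * ‖B c‖ / kp C c := by
  have key : ∀ v : V, ‖v‖ < kp C c → ‖B v‖ ≤ (2 * M + 1) * ‖B c‖ := by
    intro v hv
    have h1 := hB _ (kp_ball hv)
    have h2 := hB _ (kp_ball (C := C) (c := c) (v := -v) (by rwa [norm_neg]))
    have h3 := hM _ h1 _ h2
    have h4 : B (c + v) + B (c + -v) = (2 : ℝ) • B c := by
      rw [map_add, map_add, map_neg, two_smul]; abel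
    rw [h4, norm_smul, Real.norm_eq_abs, abs_of_pos (by norm_num : (0 : ℝ) < 2)] at h3
    have h5 : ‖B v‖ ≤ ‖B (c + v)‖ + ‖B c‖ := by
      have := norm_sub_le (B (c + v)) (B c)
      rwa [map_add, add_sub_cancel_left, ← map_add] at this
    linarith
  refine ContinuousLinearMap.opNorm_le_bound _ (by positivity) fun v => ?_
  rcases eq_or_ne v 0 with rfl | hv
  · rw [map_zero, norm_zero, mul_zero]
  have hv0 : 0 < ‖v‖ := norm_pos_iff.2 hv
  have h1 := key ((kp C c / (2 * ‖v‖)) • v) (by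
    rw [norm_smul, Real.norm_eq_abs, abs_of_pos (by positivity)]
    have : kp C c / (2 * ‖v‖) * ‖v‖ = kp C c / 2 := by field_simp
    rw [this]; linarith)
  rw [map_smul, norm_smul, Real.norm_eq_abs, abs_of_pos (by positivity)] at h1
  have h2 : ‖B v‖ = (2 * ‖v‖ / kp C c) * (kp C c / (2 * ‖v‖) * ‖B v‖) := by field_simp
  rw [h2]
  calc (2 * ‖v‖ / kp C c) * (kp C c / (2 * ‖v‖) * ‖B v‖)
      ≤ (2 * ‖v‖ / kp C c) * ((2 * M + 1) * ‖B c‖) := by gcongr
    _ = _ := by ring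

/-- the weight -/
noncomputable def wc (C : Set V) (R : ℝ) (c : V) : ℝ := max 0 (R * kp C c - ‖c‖)

theorem wc_nonneg (R : ℝ) (c : V) : 0 ≤ wc C R c := le_max_left _ _

theorem wc_smul (hC : SCone C) [Nontrivial V] (R : ℝ) (c : V) {t : ℝ} (ht : 0 < t) :
    wc C R (t • c) = t * wc C R c := by
  unfold wc
  rw [kp_smul hC c ht, norm_smul, Real.norm_eq_abs, abs_of_pos ht,
    mul_max_of_nonneg _ _ ht.le, mul_zero]
  congr 1
  ring

theorem wc_lip {R : ℝ} (hR : 0 < R) (x y : V) : |wc C R x - wc C R y| ≤ (R + 1) * ‖x - y‖ := by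
  unfold wc
  rw [max_comm 0, max_comm 0]
  refine (abs_max_sub_max_le_abs _ _ _).trans ?_
  have h1 := kp_lip C x y
  have h2 := abs_norm_sub_norm_le x y
  have e : R * kp C x - ‖x‖ - (R * kp C y - ‖y‖) = R * (kp C x - kp C y) - (‖x‖ - ‖y‖) := by ring
  rw [e]
  calc |R * (kp C x - kp C y) - (‖x‖ - ‖y‖)| ≤ |R * (kp C x - kp C y)| + |‖x‖ - ‖y‖| := by
        have := abs_add_le (R * (kp C x - kp C y)) (-(‖x‖ - ‖y‖))
        rwa [abs_neg, ← sub_eq_add_neg] at this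
    _ = R * |kp C x - kp C y| + |‖x‖ - ‖y‖| := by rw [abs_mul, abs_of_pos hR]
    _ ≤ R * ‖x - y‖ + ‖x - y‖ := by gcongr
    _ = _ := by ring

end cone

section hom
variable {Γ V E : Type} [Group Γ] [NormedAddCommGroup V] [NormedSpace ℝ V] [FiniteDimensional ℝ V]
  [Nontrivial V] (A : Γ →* (V →L[ℝ] V)) (C : Set V)
  [NormedAddCommGroup E] [NormedSpace ℝ E] (hol : Γ →* (E ≃ᵃ[ℝ] E))

variable {A C}

theorem A_inv_apply (γ : Γ) (v : V) : A γ⁻¹ (A γ v) = v := by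
  have : A γ⁻¹ * A γ = 1 := by rw [← map_mul, inv_mul_cancel, map_one]
  exact congrArg (fun B : V →L[ℝ] V => B v) this

theorem wc_fin (hC : SCone C) (hA : ∀ γ, ∀ c ∈ C, A γ c ∈ C)
    (hfin : ∀ r : ℝ, {γ : Γ | ‖A γ‖ * ‖A γ⁻¹‖ ≤ r}.Finite) {R : ℝ} (hR : 0 < R) {c0 : V}
    (h0 : c0 ∈ C) : ∃ U ∈ 𝓝 c0, ∃ Φ : Finset Γ, ∀ c ∈ U, ∀ γ : Γ, γ ∉ Φ →
      wc C R (A γ⁻¹ c) = 0 := by
  obtain ⟨M, hM0, hM⟩ := hC.mono
  let R' : ℝ := ‖c0‖ / kp C c0 + 1
  have hk0 := kp_pos hC h0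
  have hR' : 0 < R' := by positivity
  let U : Set V := {c | c ∈ C ∧ ‖c‖ < R' * kp C c}
  have hU : U ∈ 𝓝 c0 := by
    have e1 : ∀ᶠ c in 𝓝 c0, c ∈ C := hC.open'.mem_nhds h0
    have e2 : ∀ᶠ c in 𝓝 c0, ‖c‖ < R' * kp C c := by
      have hc : Continuous fun c => R' * kp C c - ‖c‖ := (continuous_const.mul (kp_cont C)).sub
        continuous_norm
      have h1 : 0 < R' * kp C c0 - ‖c0‖ := by
        have : R' * kp C c0 = ‖c0‖ + kp C c0 := by
          show (‖c0‖ / kp C c0 + 1) * kp C c0 = _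
          field_simp
        rw [this]; linarith
      filter_upwards [(hc.tendsto c0).eventually_const_lt h1] with c h2
      linarith
    filter_upwards [e1, e2] with c h1 h2
    exact ⟨h1, h2⟩
  refine ⟨U, hU, (hfin ((2 * (2 * M + 1)) ^ 2 * R * R')).toFinset, ?_⟩
  rintro c ⟨hcC, hc⟩ γ hγ
  by_contra hne
  apply hγ
  rw [Set.Finite.mem_toFinset]
  show ‖A γ‖ * ‖A γ⁻¹‖ ≤ (2 * (2 * M + 1)) ^ 2 * R * R'
  set c' := A γ⁻¹ c with hc'
  have hcC' : c' ∈ C := hA _ _ hcC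
  have hw : ‖c'‖ < R * kp C c' := by
    by_contra hcon
    push Not at hcon
    exact hne (max_eq_left (by linarith))
  have hk := kp_pos hC hcC
  have hk' := kp_pos hC hcC'
  have hAc' : A γ c' = c := by
    have := A_inv_apply (A := A) γ⁻¹ c
    rwa [inv_inv] at this
  have h1 := norm_le_of_cone hM0 hM (hA γ) hk'
  have h2 := norm_le_of_cone hM0 hM (hA γ⁻¹) hk
  rw [hAc'] at h1
  rw [← hc'] at h2
  have h3 : ‖c'‖ / kp C c' ≤ R := by rw [div_le_iff₀ hk']; exact hw.le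
  have h4 : ‖c‖ / kp C c ≤ R' := by rw [div_le_iff₀ hk]; exact hc.le
  calc ‖A γ‖ * ‖A γ⁻¹‖ ≤ (2 * (2 * M + 1) * ‖c‖ / kp C c') * (2 * (2 * M + 1) * ‖c'‖ / kp C c) := by
        gcongr
    _ = (2 * (2 * M + 1)) ^ 2 * ((‖c'‖ / kp C c') * (‖c‖ / kp C c)) := by ring
    _ ≤ (2 * (2 * M + 1)) ^ 2 * (R * R') := by gcongr
    _ = _ := by ring

variable (A C)

/-- weighted averages of the orbit of a point -/
noncomputable def GG (R : ℝ) (p0 : E) (c : V) : E :=
  (∑' γ : Γ, wc C R (A γ⁻¹ c))⁻¹ • ∑' γ : Γ, wc C R (A γ⁻¹ c) • hol γ p0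

variable {A C}

omit [FiniteDimensional ℝ V] in
theorem GG_smul (hC : SCone C) (R : ℝ) (p0 : E) (c : V) {t : ℝ} (ht : 0 < t) :
    GG A C hol R p0 (t • c) = GG A C hol R p0 c := by
  unfold GG
  simp only [map_smul, wc_smul hC R _ ht, mul_smul]
  rw [tsum_mul_left, tsum_const_smul'', mul_inv, smul_smul]
  congr 1
  field_simp

variable (A C) in
/-- points of the cone with positive total weight -/
def CG (R : ℝ) (c : V) : Prop := c ∈ C ∧ ∃ γ : Γ, 0 < wc C R (A γ⁻¹ c)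

omit [FiniteDimensional ℝ V] in
theorem CG.smul (hC : SCone C) {R : ℝ} {c : V} (h : CG A C R c) {t : ℝ} (ht : 0 < t) :
    CG A C R (t • c) := by
  refine ⟨hC.smul _ h.1 t ht, ?_⟩
  obtain ⟨γ, hγ⟩ := h.2
  refine ⟨γ, ?_⟩
  rw [map_smul, wc_smul hC R _ ht]
  positivity

theorem GG_ll (hC : SCone C) (hA : ∀ γ, ∀ c ∈ C, A γ c ∈ C)
    (hfin : ∀ r : ℝ, {γ : Γ | ‖A γ‖ * ‖A γ⁻¹‖ ≤ r}.Finite) {R : ℝ} (hR : 0 < R) (p0 : E)
    {Y E' : Type} [TopologicalSpace Y] [T2Space Y] [NormedAddCommGroup E'] [NormedSpace ℝ E']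
    {e : Y → E'} (he : Continuous e) {y : Y → V} (hy : LL e y) (hPG : ∀ t, CG A C R (y t)) :
    LL e (fun t => GG A C hol R p0 (y t)) := by
  classical
  have hyc : Continuous y := hy.continuous he
  have hw : ∀ γ : Γ, LL e (fun t => wc C R (A γ⁻¹ (y t))) := by
    intro γ
    refine LL.comp he hy (Φ := fun c : V => wc C R (A γ⁻¹ c)) fun t => ⟨univ, univ_mem,
      (R + 1) * ‖A γ⁻¹‖, by positivity, fun a _ b _ => ?_⟩
    rw [Real.norm_eq_abs]
    refine (wc_lip hR _ _).trans ?_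
    rw [← map_sub, mul_assoc]
    gcongr
    exact (A γ⁻¹).le_opNorm _
  refine LL.of_local fun t0 => ?_
  obtain ⟨U, hU, Φ, hΦ⟩ := wc_fin hC hA hfin hR (hPG t0).1
  let a : Y → ℝ := fun t => ∑ γ ∈ Φ, wc C R (A γ⁻¹ (y t))
  have ha : LL e a := LL.sum Φ fun γ _ => hw γ
  have ha0 : 0 < a t0 := by
    obtain ⟨γ, hγ⟩ := (hPG t0).2
    have hγΦ : γ ∈ Φ := by
      by_contra hcon
      rw [hΦ (y t0) (mem_of_mem_nhds hU) γ hcon] at hγ
      exact lt_irrefl _ hγ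
    exact hγ.trans_le (Finset.single_le_sum (f := fun γ => wc C R (A γ⁻¹ (y t0)))
      (fun γ _ => wc_nonneg _ _) hγΦ)
  let a' : Y → ℝ := fun t => max (a t) (a t0 / 2)
  have ha' : LL e a' := by
    refine LL.comp he ha (Φ := fun s : ℝ => max s (a t0 / 2)) fun t => ⟨univ, univ_mem, 1,
      zero_le_one, fun b _ c _ => ?_⟩
    rw [one_mul, Real.norm_eq_abs, Real.norm_eq_abs]
    exact abs_max_sub_max_le_abs _ _ _
  have ha'0 : ∀ t, 0 < a' t := fun t => lt_max_of_lt_right (by linarith)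
  refine ⟨y ⁻¹' U ∩ {t | a t0 / 2 < a t}, inter_mem (hyc.continuousAt hU)
    ((ha.continuous he).continuousAt.eventually_const_lt (by linarith)),
    fun t => (a' t)⁻¹ • ∑ γ ∈ Φ, wc C R (A γ⁻¹ (y t)) • hol γ p0, ?_, ?_⟩
  · refine LL.smul he (LL.inv he ha' ha'0) (LL.sum Φ fun γ _ => ?_)
    exact LL.smul he (hw γ) (LL.const _)
  · rintro t ⟨ht, hta⟩
    have : a' t = ∑ γ ∈ Φ, wc C R (A γ⁻¹ (y t)) := max_eq_left (le_of_lt hta)
    show GG A C hol R p0 (y t) = (a' t)⁻¹ • ∑ γ ∈ Φ, wc C R (A γ⁻¹ (y t)) • hol γ p0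
    rw [this]
    unfold GG
    rw [tsum_eq_sum (s := Φ) fun γ hγ => hΦ _ ht γ hγ,
      tsum_eq_sum (s := Φ) fun γ hγ => by rw [hΦ _ ht γ hγ, zero_smul]]

theorem GG_equi (hC : SCone C) (hA : ∀ γ, ∀ c ∈ C, A γ c ∈ C)
    (hfin : ∀ r : ℝ, {γ : Γ | ‖A γ‖ * ‖A γ⁻¹‖ ≤ r}.Finite) {R : ℝ} (hR : 0 < R) (p0 : E)
    {c : V} (hy : CG A C R c) (δ : Γ) :
    GG A C hol R p0 (A δ c) = hol δ (GG A C hol R p0 c) := by
  classical
  obtain ⟨U, hU, Φ, hΦ'⟩ := wc_fin hC hA hfin hR hy.1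
  have hΦ := hΦ' c (mem_of_mem_nhds hU)
  have hw : ∀ γ : Γ, wc C R (A γ⁻¹ (A δ c)) = wc C R (A (δ⁻¹ * γ)⁻¹ c) := by
    intro γ
    have : A (δ⁻¹ * γ)⁻¹ c = A γ⁻¹ (A δ c) := by
      rw [mul_inv_rev, inv_inv, map_mul]; rfl
    rw [this]
  unfold GG
  simp only [hw]
  rw [← Equiv.tsum_eq (Equiv.mulLeft δ) (fun γ : Γ => wc C R (A (δ⁻¹ * γ)⁻¹ c)),
    ← Equiv.tsum_eq (Equiv.mulLeft δ) (fun γ : Γ => wc C R (A (δ⁻¹ * γ)⁻¹ c) • hol γ p0)]
  simp only [Equiv.coe_mulLeft, inv_mul_cancel_left]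
  rw [tsum_eq_sum (s := Φ) fun γ hγ => hΦ γ hγ,
    tsum_eq_sum (s := Φ) fun γ hγ => by rw [hΦ γ hγ, zero_smul],
    tsum_eq_sum (s := Φ) fun γ hγ => by rw [hΦ γ hγ, zero_smul]]
  have hpos : 0 < ∑ γ ∈ Φ, wc C R (A γ⁻¹ c) := by
    obtain ⟨γ, hγ⟩ := hy.2
    have hγΦ : γ ∈ Φ := by
      by_contra hcon
      rw [hΦ γ hcon] at hγ
      exact lt_irrefl _ hγ
    exact hγ.trans_le (Finset.single_le_sum (f := fun γ => wc C R (A γ⁻¹ c))
      (fun γ _ => wc_nonneg _ _) hγΦ)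
  have h1 : ∀ v : E, hol δ v = hol δ 0 + (hol δ).linear v := fun v => by
    have := hol_add (hol := hol) δ 0 v
    rwa [zero_add] at this
  have h2 : ∀ γ : Γ, wc C R (A γ⁻¹ c) • hol (δ * γ) p0 = wc C R (A γ⁻¹ c) • hol δ 0 +
      (hol δ).linear (wc C R (A γ⁻¹ c) • hol γ p0) := by
    intro γ
    have h3 : hol (δ * γ) p0 = hol δ (hol γ p0) := by rw [map_mul]; rfl
    rw [h3, h1, smul_add, map_smul]
  rw [Finset.sum_congr rfl fun γ _ => h2 γ, Finset.sum_add_distrib, ← Finset.sum_smul, smul_add,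
    smul_smul, inv_mul_cancel₀ hpos.ne', one_smul, h1 (_ • _), map_smul, map_sum]

end hom

section main
variable {X Γ E : Type} [TopologicalSpace X] [T2Space X] [SecondCountableTopology X] [Nonempty X]
  [Group Γ] [MulAction Γ X] [NormedAddCommGroup E] [NormedSpace ℝ E] [FiniteDimensional ℝ E]
  {dev : X → E} {hol : Γ →* (E ≃ᵃ[ℝ] E)}

/-- the cone principle -/
theorem no_cone (D : AffData X Γ E dev hol) {V : Type} [NormedAddCommGroup V] [NormedSpace ℝ V]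
    [FiniteDimensional ℝ V] [Nontrivial V] (A : Γ →* (V →L[ℝ] V)) {C : Set V} (hC : SCone C)
    (hA : ∀ γ, ∀ c ∈ C, A γ c ∈ C)
    (hfin : ∀ r : ℝ, {γ : Γ | ‖A γ‖ * ‖A γ⁻¹‖ ≤ r}.Finite)
    (hdim : Module.finrank ℝ V ≤ Module.finrank ℝ E) : False := by
  obtain ⟨ρ, hρ⟩ := exists_wt D
  obtain ⟨c0, hc0⟩ := hC.nonempty
  let P : Γ → V := fun γ => A γ⁻¹ c0
  let y : X → V := av ρ P
  have hyLL : LL dev y := av_ll D hρ P
  have hyc : Continuous y := hyLL.continuous D.loc.continuous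
  have hyC : ∀ x, y x ∈ C := fun x => av_mem hρ hC.convex (fun γ => hA _ _ hc0) x
  have hyeq : ∀ (δ : Γ) x, y (δ • x) = A δ (y x) := by
    intro δ x
    show av ρ P (δ • x) = A δ (av ρ P x)
    rw [av_shift]
    have h1 : ∀ γ : Γ, P (γ * δ⁻¹) = A δ (P γ) := by
      intro γ
      show A (γ * δ⁻¹)⁻¹ c0 = _
      rw [mul_inv_rev, inv_inv, map_mul]; rfl
    simp only [h1]
    unfold av
    rw [(A δ).map_tsum (av_summable hρ _ x)]
    simp only [map_smul]
  obtain ⟨K, hK, hKc⟩ := D.cc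
  have hkc : Continuous fun x => kp C (y x) := (kp_cont C).comp hyc
  obtain ⟨R0, hR0⟩ := hK.exists_bound_of_continuousOn
    (f := fun x => ‖y x‖ / kp C (y x))
    (hyc.norm.div hkc fun x => (kp_pos hC (hyC x)).ne').continuousOn
  let R : ℝ := |R0| + 1
  have hR : 0 < R := by positivity
  have hPG : ∀ x, CG A C R (y x) := by
    intro x
    refine ⟨hyC x, ?_⟩
    obtain ⟨γ, k, hk, rfl⟩ := hKc x
    refine ⟨γ, ?_⟩
    rw [hyeq, A_inv_apply]
    have h1 := hR0 k hk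
    have h2 := kp_pos hC (hyC k)
    rw [Real.norm_eq_abs, abs_le] at h1
    have h3 := h1.2
    rw [div_le_iff₀ h2] at h3
    have h4 : R0 * kp C (y k) < R * kp C (y k) := by
      apply mul_lt_mul_of_pos_right _ h2
      show R0 < |R0| + 1
      linarith [le_abs_self R0]
    exact lt_max_of_lt_right (by linarith)
  have hf : LL dev (fun x => GG A C hol R 0 (y x)) :=
    GG_ll hol hC hA hfin hR 0 D.loc.continuous hyLL hPG
  refine null_principle D hf ?_ ?_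
  · intro γ x
    rw [hyeq, GG_equi hol hC hA hfin hR 0 (hPG x)]
  · -- a hyperplane slice of the cone
    obtain ⟨f, hf0⟩ := geometric_hahn_banach_open_point hC.convex hC.open' hC.zero_notMem
    let l : V →L[ℝ] ℝ := -f
    have hl : ∀ c ∈ C, 0 < l c := by
      intro c hc
      have := hf0 c hc
      rw [map_zero] at this
      show 0 < -(f c)
      linarith
    let c1 : V := (l c0)⁻¹ • c0
    have hc1 : l c1 = 1 := by
      show l ((l c0)⁻¹ • c0) = 1
      rw [map_smul, smul_eq_mul, inv_mul_cancel₀ (hl c0 hc0).ne']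
    let N : Submodule ℝ V := LinearMap.ker (l : V →ₗ[ℝ] ℝ)
    have hN : Module.finrank ℝ N + 1 = Module.finrank ℝ V := by
      have h1 := LinearMap.finrank_range_add_finrank_ker (l : V →ₗ[ℝ] ℝ)
      have h2 : LinearMap.range (l : V →ₗ[ℝ] ℝ) = ⊤ := by
        rw [LinearMap.range_eq_top]
        intro t
        refine ⟨t • c1, ?_⟩
        show l (t • c1) = t
        rw [map_smul, hc1, smul_eq_mul, mul_one]
      rw [h2, finrank_top, Module.finrank_self] at h1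
      show Module.finrank ℝ (LinearMap.ker (l : V →ₗ[ℝ] ℝ)) + 1 = _
      omega
    let G : Set N := {k | CG A C R (c1 + (k : V))}
    let e : G → N := Subtype.val
    have hy2 : LL e (fun t : G => c1 + ((t : N) : V)) := by
      intro t
      refine ⟨univ, univ_mem, 1, zero_le_one, fun a _ b _ => ?_⟩
      rw [add_sub_add_left_eq_sub, one_mul]
      exact le_rfl
    have hF : LL e (fun t : G => GG A C hol R 0 (c1 + ((t : N) : V))) :=
      GG_ll hol hC hA hfin hR 0 continuous_subtype_val hy2 fun t => t.2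
    have h1 : dimH (range fun t : G => GG A C hol R 0 (c1 + ((t : N) : V))) ≤
        dimH (univ : Set G) := by
      refine dimH_range_le_of_locally_lipschitzOn fun t => ?_
      obtain ⟨U, hU, L, hL, H⟩ := hF t
      refine ⟨⟨L, hL⟩, U, hU, LipschitzOnWith.of_dist_le_mul fun a ha b hb => ?_⟩
      have h9 : dist a b = ‖e a - e b‖ := dist_eq_norm (e a) (e b)
      rw [dist_eq_norm, h9]
      exact H a ha b hb
    have h2 : dimH (univ : Set G) ≤ Module.finrank ℝ N := by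
      have h3 : dimH (Subtype.val '' (univ : Set G)) = dimH (univ : Set G) :=
        isometry_subtype_coe.dimH_image univ
      rw [← h3]
      calc dimH (Subtype.val '' (univ : Set G)) ≤ dimH (univ : Set N) :=
            dimH_mono (subset_univ _)
        _ = Module.finrank ℝ N := Real.dimH_univ_eq_finrank N
    have h3 : range (fun x => GG A C hol R 0 (y x)) ⊆
        range fun t : G => GG A C hol R 0 (c1 + ((t : N) : V)) := by
      rintro _ ⟨x, rfl⟩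
      have h4 := hl _ (hyC x)
      have h5 : l ((l (y x))⁻¹ • y x - c1) = 0 := by
        rw [map_sub, map_smul, smul_eq_mul, inv_mul_cancel₀ h4.ne', hc1, sub_self]
      have h6 : c1 + ((l (y x))⁻¹ • y x - c1) = (l (y x))⁻¹ • y x := by abel
      have h7 : CG A C R (c1 + ((l (y x))⁻¹ • y x - c1)) := by
        rw [h6]
        exact (hPG x).smul hC (inv_pos.2 h4)
      refine ⟨⟨⟨(l (y x))⁻¹ • y x - c1, h5⟩, h7⟩, ?_⟩
      show GG A C hol R 0 (c1 + ((l (y x))⁻¹ • y x - c1)) = GG A C hol R 0 (y x)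
      rw [h6, GG_smul hol hC R 0 _ (inv_pos.2 h4)]
    have h7 : (Module.finrank ℝ N : ℝ≥0∞) < Module.finrank ℝ E := by
      have : Module.finrank ℝ N < Module.finrank ℝ E := by omega
      exact_mod_cast this
    exact lt_of_le_of_lt ((dimH_mono h3).trans (h1.trans h2)) h7

end main

end Pool.Agent.Helper23N
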