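import Pool.Agent.Helper23N.Irr
import Pool.Agent.Helper23N.Cone
import Pool.Agent.Helper23M.Main

/-!
Closed affine manifolds of odd dimension with virtually irreducible linear holonomy.
-/

set_option autoImplicit false

open Set Filter Topology Metric
open Pool.Agent.W689.Mk Pool.Agent.Helper23M

namespace Pool.Agent.Helper23N

section norm
variable {E : Type} [NormedAddCommGroup E] [NormedSpace ℝ E] [FiniteDimensional ℝ E]

theorem one_le_norm (hpos : 0 < Module.finrank ℝ E) {B : E →L[ℝ] E} (hdet : |B.det| = 1) :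
    1 ≤ ‖B‖ := by
  by_contra hcon
  push Not at hcon
  have h1 := tendsto_pow_atTop_nhds_zero_of_norm_lt_one hcon
  have h2 := (ContinuousLinearMap.continuous_det.tendsto (0 : E →L[ℝ] E)).comp h1
  have h3 : (0 : E →L[ℝ] E).det = 0 := by
    show LinearMap.det (0 : E →ₗ[ℝ] E) = 0
    rw [LinearMap.det_zero, zero_pow hpos.ne']
  rw [h3] at h2
  have h4 : Tendsto (fun _ : ℕ => (1 : ℝ)) atTop (𝓝 |(0 : ℝ)|) := by
    refine h2.abs.congr fun k => ?_
    show |LinearMap.det ((B ^ k : E →L[ℝ] E) : E →ₗ[ℝ] E)| = 1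
    have h5 : ((B ^ k : E →L[ℝ] E) : E →ₗ[ℝ] E) = (B : E →ₗ[ℝ] E) ^ k := by
      induction k with
      | zero => rfl
      | succ k ih => rw [pow_succ, pow_succ, ← ih]; rfl
    rw [h5, map_pow, abs_pow]
    have h6 : |LinearMap.det (B : E →ₗ[ℝ] E)| = 1 := hdet
    rw [h6, one_pow]
  have h5 := tendsto_nhds_unique h4 tendsto_const_nhds
  rw [abs_zero] at h5
  exact zero_ne_one h5

end norm

section main
variable {X Γ E : Type} [TopologicalSpace X] [T2Space X] [SecondCountableTopology X] [Nonempty X]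
  [Group Γ] [MulAction Γ X] [NormedAddCommGroup E] [NormedSpace ℝ E] [FiniteDimensional ℝ E]
  {dev : X → E} {hol : Γ →* (E ≃ᵃ[ℝ] E)}

/-- virtually irreducible linear holonomy preserves no sharp convex cone -/
theorem no_cone_of_irr (D : AffData X Γ E dev hol) (hinj : Function.Injective dev)
    (hodd : Odd (Module.finrank ℝ E)) (h2 : 2 ≤ Module.finrank ℝ E) (hirr : VIrr hol)
    (H : Subgroup Γ) (hH : H.FiniteIndex) {C : Set E} (hC : SCone C)
    (hCH : ∀ γ ∈ H, ∀ v ∈ C, (hol γ).linear v ∈ C) : False := by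
  have : Nontrivial E := Module.nontrivial_of_finrank_pos (R := ℝ) (by omega)
  have DH := Pool.Agent.Y449.MK.restrict D H hH
  refine no_cone DH (Lc (hol.comp H.subtype)) hC (fun γ v hv => hCH γ γ.2 v hv) (fun r => ?_) le_rfl
  have h1 := proper_of_irr D hinj hodd h2 hirr r
  have h3 : {γ : H | ‖Lc (hol.comp H.subtype) γ‖ * ‖Lc (hol.comp H.subtype) γ⁻¹‖ ≤ r} ⊆
      (fun γ : H => (γ : Γ)) ⁻¹' {γ : Γ | ‖Lc hol γ‖ ≤ r} := by
    intro γ hγ
    show ‖Lc hol (γ : Γ)‖ ≤ r
    have h4 : ‖Lc hol (γ : Γ)‖ * ‖Lc hol ((γ⁻¹ : H) : Γ)‖ ≤ r := hγ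
    have h5 : 1 ≤ ‖Lc hol ((γ⁻¹ : H) : Γ)‖ := one_le_norm (by omega) (D.unimod _)
    have h6 := norm_nonneg (Lc hol (γ : Γ))
    nlinarith
  exact (h1.preimage Subtype.val_injective.injOn).subset h3

/-- the derived series in the big group -/
def Ds (S : Subgroup Γ) : ℕ → Subgroup Γ
  | 0 => S
  | i + 1 => ⁅Ds S i, Ds S i⁆

theorem Ds_map (S : Subgroup Γ) (i : ℕ) : Ds S i = (derivedSeries S i).map S.subtype := by
  induction i with
  | zero =>
    show S = (⊤ : Subgroup S).map S.subtype
    rw [← MonoidHom.range_eq_map, Subgroup.range_subtype]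
  | succ i ih =>
    show ⁅Ds S i, Ds S i⁆ = _
    rw [ih, derivedSeries_succ, Subgroup.map_commutator]

theorem Ds_normal (S : Subgroup Γ) (hS : S.Normal) (i : ℕ) : (Ds S i).Normal := by
  induction i with
  | zero => exact hS
  | succ i ih =>
    have := ih
    exact Subgroup.commutator_normal _ _

/-- solvable normal subgroups have scalar linear parts -/
theorem scalar_of_solvable (hodd : Odd (Module.finrank ℝ E)) (hirr : VIrr hol) (S : Subgroup Γ)
    (hS : S.Normal) (hsol : Group.IsSolvable S) :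
    ∀ s ∈ S, ∃ c : ℂ, ∀ v, Rx hol s v = c • v := by
  obtain ⟨m, hm⟩ := hsol
  have hbot : Ds S m = ⊥ := by
    rw [Ds_map, hm, Subgroup.map_bot]
  have key : ∀ j ≤ m, ∀ s ∈ Ds S (m - j), ∃ c : ℂ, ∀ v, Rx hol s v = c • v := by
    intro j
    induction j with
    | zero =>
      intro _ s hs
      rw [Nat.sub_zero, hbot, Subgroup.mem_bot] at hs
      refine ⟨1, fun v => ?_⟩
      rw [hs, map_one, one_smul]; rfl
    | succ j ih =>
      intro hj
      by_contra hcon
      push Not at hcon
      obtain ⟨s, hs, hns⟩ := hcon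
      obtain ⟨H, W, hH, hW0, hW1, hW⟩ := Pool.Agent.Y449.MS.M2.main Pool.Agent.Y449.MS.M1.main Γ
        (Fin (Module.finrank ℝ E) → ℂ) (Rx hol) (Ds S (m - (j + 1))) (Ds_normal S hS _) (by
          intro a ha b hb
          apply ih (by omega)
          have e : m - j = (m - (j + 1)) + 1 := by omega
          rw [e]
          show a * b * a⁻¹ * b⁻¹ ∈ ⁅Ds S (m - (j + 1)), Ds S (m - (j + 1))⁆
          exact Subgroup.commutator_mem_commutator ha hb) ⟨s, hs, hns⟩
      obtain ⟨U, hU0, hU1, hU⟩ := real_sub hodd H W hW0 hW1 hW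
      obtain ⟨γ, hγ, v, hv, hv'⟩ := hirr H hH U hU0 hU1
      exact hv' (hU γ hγ v hv)
  have h1 := key m le_rfl
  rw [Nat.sub_self] at h1
  exact h1

/-- scalar complexified linear parts of determinant `± 1` have norm at most one -/
theorem norm_of_scalar (hpos : 0 < Module.finrank ℝ E) (D : AffData X Γ E dev hol) {s : Γ}
    {c : ℂ} (hc : ∀ v, Rx hol s v = c • v) : ‖Lc hol s‖ ≤ 1 := by
  have : Nontrivial E := Module.nontrivial_of_finrank_pos hpos
  have h1 : ∀ v : E, Lc hol s v = c.re • v := by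
    intro v
    have h1 := hc (cr _ ((Module.finBasis ℝ E).equivFun v))
    rw [Rx_apply, Lx_apply, mul_cr, Ln_repr] at h1
    apply (Module.finBasis ℝ E).equivFun.injective
    rw [Lc_apply]
    ext i
    have h2 := congrArg Complex.re (congrFun h1 i)
    rw [map_smul]
    show (Module.finBasis ℝ E).equivFun ((hol s).linear v) i =
      c.re * (Module.finBasis ℝ E).equivFun v i
    have h3 : ((c • cr _ ((Module.finBasis ℝ E).equivFun v)) i).re =
        c.re * (Module.finBasis ℝ E).equivFun v i := by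
      show (c * (((Module.finBasis ℝ E).equivFun v i : ℝ) : ℂ)).re = _
      rw [Complex.re_mul_ofReal]
    rw [← h3, ← h2]
    rfl
  have h2 : |c.re| = 1 := by
    have hdet : |(Lc hol s).det| = 1 := D.unimod s
    have h3 : (Lc hol s).det = c.re ^ Module.finrank ℝ E := by
      show LinearMap.det (Lc hol s : E →ₗ[ℝ] E) = _
      have : (Lc hol s : E →ₗ[ℝ] E) = c.re • LinearMap.id := by
        ext v; exact h1 v
      rw [this, LinearMap.det_smul, LinearMap.det_id, mul_one]
    rw [h3, abs_pow] at hdet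
    exact (pow_eq_one_iff_of_nonneg (abs_nonneg _) hpos.ne').1 hdet
  refine ContinuousLinearMap.opNorm_le_bound _ zero_le_one fun v => ?_
  rw [h1 v, norm_smul, Real.norm_eq_abs, h2]

/-- solvable normal subgroups are finite -/
theorem finite_of_solvable (D : AffData X Γ E dev hol) (hinj : Function.Injective dev)
    (hodd : Odd (Module.finrank ℝ E)) (h2 : 2 ≤ Module.finrank ℝ E) (hirr : VIrr hol)
    (S : Subgroup Γ) (hS : S.Normal) (hsol : Group.IsSolvable S) : (S : Set Γ).Finite := by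
  refine (proper_of_irr D hinj hodd h2 hirr 1).subset fun s hs => ?_
  obtain ⟨c, hc⟩ := scalar_of_solvable hodd hirr S hS hsol s hs
  exact norm_of_scalar (by omega) D hc

end main

end Pool.Agent.Helper23N
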