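import Pool.Agent.Helper23N.Proper

/-!
Properness of virtually irreducible linear holonomy in odd dimensions.
-/

set_option autoImplicit false

open Set Filter Topology Metric
open Pool.Agent.W689.Mk Pool.Agent.Helper23M

namespace Pool.Agent.Helper23N

section small
variable {Γ E : Type} [Group Γ] [NormedAddCommGroup E] [NormedSpace ℝ E] [FiniteDimensional ℝ E]
  {hol : Γ →* (E ≃ᵃ[ℝ] E)}

theorem det_Lc (γ : Γ) : (Lc hol γ).det = LinearMap.det ((hol γ).linear : E →ₗ[ℝ] E) := rfl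

/-- infinitely many bounded linear parts give small ones -/
theorem small_of_infinite (hdet : ∀ γ : Γ, |LinearMap.det ((hol γ).linear : E →ₗ[ℝ] E)| = 1)
    (hker : {γ : Γ | Lc hol γ = 1}.Finite) {C : ℝ} (hinf : {γ : Γ | ‖Lc hol γ‖ ≤ C}.Infinite) :
    ∀ ε : ℝ, 0 < ε → ∃ δ : Γ, ‖Lc hol δ - 1‖ < ε ∧ Lc hol δ ≠ 1 := by
  have : ProperSpace (E →L[ℝ] E) := FiniteDimensional.proper ℝ _
  have : CompleteSpace E := FiniteDimensional.complete ℝ E
  let V : Set (E →L[ℝ] E) := Lc hol '' {γ : Γ | ‖Lc hol γ‖ ≤ C}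
  have hV : V.Infinite := by
    intro hfin
    apply hinf
    refine (hfin.biUnion (t := fun x => {γ : Γ | Lc hol γ = x}) fun x hx => ?_).subset ?_
    · obtain ⟨γ0, -, rfl⟩ := hx
      refine (hker.image fun n => γ0 * n).subset ?_
      intro γ hγ
      refine ⟨γ0⁻¹ * γ, ?_, by group⟩
      show Lc hol (γ0⁻¹ * γ) = 1
      have hγ' : Lc hol γ = Lc hol γ0 := hγ
      rw [map_mul, hγ', Lc_inv']
    · intro γ hγ
      exact mem_iUnion₂.2 ⟨Lc hol γ, ⟨γ, hγ, rfl⟩, rfl⟩
  let e := hV.natEmbedding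
  have hγ : ∀ k : ℕ, ∃ γ : Γ, ‖Lc hol γ‖ ≤ C ∧ Lc hol γ = (e k : E →L[ℝ] E) := fun k => (e k).2
  choose γ hγC hγe using hγ
  obtain ⟨g, -, φ, hφ, hlim⟩ := (isCompact_closedBall (0 : E →L[ℝ] E) C).tendsto_subseq
    (x := fun k => Lc hol (γ k)) (fun k => mem_closedBall_zero_iff.2 (hγC k))
  have hdetg : |g.det| = 1 := by
    have h1 := (ContinuousLinearMap.continuous_det.tendsto g).comp hlim
    have h2 : Tendsto (fun _ : ℕ => (1 : ℝ)) atTop (𝓝 |g.det|) := by
      refine h1.abs.congr fun k => ?_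
      exact hdet (γ (φ k))
    exact (tendsto_nhds_unique h2 tendsto_const_nhds)
  have hdet0 : g.det ≠ 0 := fun h => by rw [h, abs_zero] at hdetg; exact zero_ne_one hdetg
  let eg := g.toContinuousLinearEquivOfDetNeZero hdet0
  let u : (E →L[ℝ] E)ˣ := ⟨g, (eg.symm : E →L[ℝ] E), by
      ext v
      exact eg.apply_symm_apply v, by
      ext v
      exact eg.symm_apply_apply v⟩
  have hinv : ∀ δ : Γ, Ring.inverse (Lc hol δ) = Lc hol δ⁻¹ := by
    intro δ
    let w : (E →L[ℝ] E)ˣ := ⟨Lc hol δ, Lc hol δ⁻¹, Lc_inv hol δ, Lc_inv' hol δ⟩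
    exact Ring.inverse_unit w
  have hlim2 : Tendsto (fun k => Lc hol (γ (φ k))⁻¹) atTop (𝓝 (Ring.inverse g)) := by
    have h1 := (NormedRing.inverse_continuousAt u).tendsto.comp hlim
    exact h1.congr fun k => hinv _
  have hlim3 : Tendsto (fun k => Lc hol ((γ (φ k))⁻¹ * γ (φ (k + 1)))) atTop
      (𝓝 (Ring.inverse g * g)) := by
    have h1 := hlim2.mul (hlim.comp (tendsto_add_atTop_nat 1))
    refine h1.congr fun k => ?_
    rw [map_mul]; rfl
  have hone : Ring.inverse g * g = 1 := Ring.inverse_mul_cancel g u.isUnit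
  rw [hone] at hlim3
  intro ε hε
  have h4 := (tendsto_iff_norm_sub_tendsto_zero.1 hlim3).eventually_lt_const hε
  obtain ⟨k, hk⟩ := h4.exists
  refine ⟨_, hk, fun h1 => ?_⟩
  have h2 : Lc hol (γ (φ k)) = Lc hol (γ (φ (k + 1))) := by
    have h3 : Lc hol (γ (φ k)) * Lc hol ((γ (φ k))⁻¹ * γ (φ (k + 1))) =
        Lc hol (γ (φ (k + 1))) := by
      rw [← map_mul]; congr 1; group
    rwa [h1, mul_one] at h3
  rw [hγe, hγe] at h2
  have h3 := hφ.injective (e.injective (Subtype.ext h2))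
  omega

end small

section real
variable {n : ℕ}

/-- inclusion of real vectors -/
noncomputable def cr (n : ℕ) : (Fin n → ℝ) →ₗ[ℝ] (Fin n → ℂ) where
  toFun v i := (v i : ℂ)
  map_add' v w := by ext i; simp
  map_smul' t v := by ext i; simp

/-- real parts -/
noncomputable def rp (n : ℕ) : (Fin n → ℂ) →ₗ[ℝ] (Fin n → ℝ) where
  toFun v i := (v i).re
  map_add' v w := by ext i; simp
  map_smul' t v := by ext i; simp

theorem mul_cr (M : Matrix (Fin n) (Fin n) ℝ) (v : Fin n → ℝ) :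
    (M.map Complex.ofReal).mulVec (cr n v) = cr n (M.mulVec v) := by
  ext i
  show ∑ j, (M i j : ℂ) * (v j : ℂ) = ((∑ j, M i j * v j : ℝ) : ℂ)
  push_cast
  rfl

theorem rp_mul (M : Matrix (Fin n) (Fin n) ℝ) (v : Fin n → ℂ) :
    rp n ((M.map Complex.ofReal).mulVec v) = M.mulVec (rp n v) := by
  ext i
  show (∑ j, (M i j : ℂ) * v j).re = ∑ j, M i j * (v j).re
  rw [Complex.re_sum]
  refine Finset.sum_congr rfl fun j _ => ?_
  rw [Complex.re_ofReal_mul]

/-- complex invariant subspaces give real ones in odd dimensions -/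
theorem real_of_complex (hodd : Odd n) {ι : Type} (M : ι → Matrix (Fin n) (Fin n) ℝ)
    (W : Submodule ℂ (Fin n → ℂ)) (hW0 : W ≠ ⊥) (hW1 : W ≠ ⊤)
    (hW : ∀ i, ∀ v ∈ W, ((M i).map Complex.ofReal).mulVec v ∈ W) :
    ∃ U : Submodule ℝ (Fin n → ℝ), U ≠ ⊥ ∧ U ≠ ⊤ ∧ ∀ i, ∀ v ∈ U, (M i).mulVec v ∈ U := by
  let U1 : Submodule ℝ (Fin n → ℝ) := (W.restrictScalars ℝ).comap (cr n)
  have hU1 : ∀ v, v ∈ U1 ↔ cr n v ∈ W := fun v => Iff.rfl
  have hU1top : U1 ≠ ⊤ := by
    intro h
    apply hW1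
    rw [Submodule.eq_top_iff']
    intro v
    have h1 : v = ∑ i, v i • cr n (Pi.single i 1) := by
      ext j
      rw [Finset.sum_apply, Finset.sum_eq_single j]
      · show v j = v j * (((Pi.single j (1 : ℝ) : Fin n → ℝ) j : ℝ) : ℂ)
        simp
      · intro i _ hij
        show v i * (((Pi.single i (1 : ℝ) : Fin n → ℝ) j : ℝ) : ℂ) = 0
        rw [Pi.single_eq_of_ne hij.symm]
        simp
      · intro h; exact absurd (Finset.mem_univ j) h
    rw [h1]
    refine Submodule.sum_mem _ fun i _ => Submodule.smul_mem _ _ ?_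
    rw [← hU1, h]
    trivial
  by_cases hU1b : U1 = ⊥
  · let U2 : Submodule ℝ (Fin n → ℝ) := (W.restrictScalars ℝ).map (rp n)
    have hker : ∀ w ∈ W, rp n w = 0 → w = 0 := by
      intro w hw h0
      have h1 : cr n (rp n (-(Complex.I • w))) = -(Complex.I • w) := by
        ext i
        have h2 : (w i).re = 0 := congrFun h0 i
        show ((-(Complex.I * w i)).re : ℂ) = -(Complex.I * w i)
        apply Complex.ext <;> simp [h2]
      have h2 : rp n (-(Complex.I • w)) ∈ U1 := by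
        rw [hU1, h1]
        exact Submodule.neg_mem _ (Submodule.smul_mem _ _ hw)
      rw [hU1b, Submodule.mem_bot] at h2
      rw [h2, map_zero] at h1
      have h3 : Complex.I • w = 0 := neg_eq_zero.1 h1.symm
      exact (smul_eq_zero.1 h3).resolve_left Complex.I_ne_zero
    refine ⟨U2, ?_, ?_, ?_⟩
    · intro h
      apply hW0
      rw [Submodule.eq_bot_iff]
      intro w hw
      apply hker w hw
      have h1 : rp n w ∈ U2 := ⟨w, hw, rfl⟩
      rw [h] at h1
      exact (Submodule.mem_bot ℝ).1 h1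
    · intro h
      let f : (W.restrictScalars ℝ) →ₗ[ℝ] (Fin n → ℝ) := (rp n).domRestrict (W.restrictScalars ℝ)
      have hf : Function.Injective f := by
        rw [← LinearMap.ker_eq_bot, LinearMap.ker_eq_bot']
        intro w hw
        exact Subtype.ext (hker w w.2 hw)
      have h1 := LinearMap.finrank_range_of_inj hf
      have h2 : LinearMap.range f = ⊤ := by
        rw [eq_top_iff]
        intro v _
        have h3 : v ∈ U2 := by rw [h]; trivial
        obtain ⟨w, hw, rfl⟩ := h3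
        exact ⟨⟨w, hw⟩, rfl⟩
      rw [h2, finrank_top, Module.finrank_fin_fun] at h1
      have h3 : Module.finrank ℝ W = 2 * Module.finrank ℂ W := finrank_real_of_complex W
      have h4 : Module.finrank ℝ (W.restrictScalars ℝ) = Module.finrank ℝ W := rfl
      rw [h4, h3] at h1
      rcases hodd with ⟨k, hk⟩
      omega
    · rintro i _ ⟨w, hw, rfl⟩
      exact ⟨_, hW i w hw, rp_mul (M i) w⟩
  · refine ⟨U1, hU1b, hU1top, fun i v hv => ?_⟩
    rw [hU1, ← mul_cr]
    exact hW i _ hv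

end real

section data
variable {Γ E : Type} [Group Γ] [NormedAddCommGroup E] [NormedSpace ℝ E] [FiniteDimensional ℝ E]
  (hol : Γ →* (E ≃ᵃ[ℝ] E))

/-- matrices of the linear holonomy -/
noncomputable def Ln : Γ →* Matrix (Fin (Module.finrank ℝ E)) (Fin (Module.finrank ℝ E)) ℝ where
  toFun γ := LinearMap.toMatrix (Module.finBasis ℝ E) (Module.finBasis ℝ E)
    ((hol γ).linear : E →ₗ[ℝ] E)
  map_one' := by
    rw [map_one]
    exact LinearMap.toMatrix_id _
  map_mul' γ δ := by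
    rw [lin_mul', LinearMap.toMatrix_comp _ (Module.finBasis ℝ E)]

theorem Ln_repr (γ : Γ) (v : E) : (Ln hol γ).mulVec ((Module.finBasis ℝ E).equivFun v) =
    (Module.finBasis ℝ E).equivFun ((hol γ).linear v) :=
  LinearMap.toMatrix_mulVec_repr _ _ _ _

/-- the complexified linear holonomy -/
noncomputable def Lx : Γ →* Matrix (Fin (Module.finrank ℝ E)) (Fin (Module.finrank ℝ E)) ℂ :=
  (Complex.ofRealHom.mapMatrix : Matrix (Fin (Module.finrank ℝ E)) (Fin (Module.finrank ℝ E)) ℝ →+*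
    Matrix (Fin (Module.finrank ℝ E)) (Fin (Module.finrank ℝ E)) ℂ).toMonoidHom.comp (Ln hol)

theorem Lx_apply (γ : Γ) : Lx hol γ = (Ln hol γ).map Complex.ofReal := rfl

theorem Lx_inv (γ : Γ) : Lx hol γ * Lx hol γ⁻¹ = 1 := by
  rw [← map_mul, mul_inv_cancel, map_one]

theorem Lx_inv' (γ : Γ) : Lx hol γ⁻¹ * Lx hol γ = 1 := by
  rw [← map_mul, inv_mul_cancel, map_one]

/-- the complexified representation -/
noncomputable def Rx : Γ →* ((Fin (Module.finrank ℝ E) → ℂ) ≃ₗ[ℂ] (Fin (Module.finrank ℝ E) → ℂ)) where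
  toFun γ := LinearEquiv.ofLinearMap (Matrix.toLin' (Lx hol γ)) (Matrix.toLin' (Lx hol γ⁻¹))
    (by rw [← Matrix.toLin'_mul, Lx_inv, Matrix.toLin'_one])
    (by rw [← Matrix.toLin'_mul, Lx_inv', Matrix.toLin'_one])
  map_one' := by
    ext v : 1
    show Matrix.toLin' (Lx hol 1) v = v
    rw [map_one, Matrix.toLin'_one]; rfl
  map_mul' γ δ := by
    ext v : 1
    show Matrix.toLin' (Lx hol (γ * δ)) v = Matrix.toLin' (Lx hol γ) (Matrix.toLin' (Lx hol δ) v)
    rw [map_mul, Matrix.toLin'_mul]; rfl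

theorem Rx_apply (γ : Γ) (v : Fin (Module.finrank ℝ E) → ℂ) :
    Rx hol γ v = (Lx hol γ).mulVec v := rfl

theorem Lc_to_Ln {γ δ : Γ} (h : Lc hol γ = Lc hol δ) : Ln hol γ = Ln hol δ := by
  show LinearMap.toMatrix _ _ ((hol γ).linear : E →ₗ[ℝ] E) =
    LinearMap.toMatrix _ _ ((hol δ).linear : E →ₗ[ℝ] E)
  congr 1
  exact LinearMap.ext fun v => congrArg (fun B : E →L[ℝ] E => B v) h

variable {hol}

/-- complex subspaces invariant under a subgroup give real ones -/
theorem real_sub (hodd : Odd (Module.finrank ℝ E)) (H : Subgroup Γ)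
    (W : Submodule ℂ (Fin (Module.finrank ℝ E) → ℂ)) (hW0 : W ≠ ⊥) (hW1 : W ≠ ⊤)
    (hW : ∀ h ∈ H, ∀ v ∈ W, Rx hol h v ∈ W) :
    ∃ U : Submodule ℝ E, U ≠ ⊥ ∧ U ≠ ⊤ ∧ ∀ h ∈ H, ∀ v ∈ U, (hol h).linear v ∈ U := by
  obtain ⟨U, hU0, hU1, hU⟩ := real_of_complex hodd (fun h : H => Ln hol h) W hW0 hW1
    (fun h v hv => hW h h.2 v hv)
  let f := (Module.finBasis ℝ E).equivFun
  have hf : Function.Surjective f := f.surjective
  refine ⟨U.comap (f : E →ₗ[ℝ] _), ?_, ?_, ?_⟩
  · intro h0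
    apply hU0
    rw [Submodule.eq_bot_iff] at h0 ⊢
    intro u hu
    obtain ⟨v, rfl⟩ := hf u
    rw [h0 v hu, map_zero]
  · intro h0
    apply hU1
    rw [Submodule.eq_top_iff'] at h0 ⊢
    intro u
    obtain ⟨v, rfl⟩ := hf u
    exact h0 v
  · intro h hh v hv
    show f ((hol h).linear v) ∈ U
    rw [← Ln_repr]
    exact hU ⟨h, hh⟩ _ hv

/-- a normal subgroup with commuting linear parts which are not all scalar makes the linear
holonomy virtually reducible -/
theorem red_of_comm (hodd : Odd (Module.finrank ℝ E)) (N : Subgroup Γ) (hN : N.Normal)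
    (hc : ∀ a ∈ N, ∀ b ∈ N, Lc hol a * Lc hol b = Lc hol b * Lc hol a)
    {z : Γ} (hz : z ∈ N) (hns : ∀ c : ℝ, ∃ v, Lc hol z v ≠ c • v) :
    ∃ (H : Subgroup Γ) (U : Submodule ℝ E), H.FiniteIndex ∧ U ≠ ⊥ ∧ U ≠ ⊤ ∧
      ∀ h ∈ H, ∀ v ∈ U, (hol h).linear v ∈ U := by
  obtain ⟨H, W, hH, hW0, hW1, hW⟩ := Pool.Agent.Y449.MS.M1.main Γ
    (Fin (Module.finrank ℝ E) → ℂ) (Rx hol) N hN (by
      intro a ha b hb v
      have h1 : Lc hol (a * b) = Lc hol (b * a) := by
        rw [map_mul, map_mul]; exact hc a ha b hb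
      have h2 : Lx hol (a * b) = Lx hol (b * a) := by
        rw [Lx_apply, Lx_apply, Lc_to_Ln hol h1]
      rw [Rx_apply, Rx_apply, Rx_apply, Rx_apply, Matrix.mulVec_mulVec, Matrix.mulVec_mulVec,
        ← map_mul, ← map_mul, h2]) (by
      refine ⟨z, hz, fun c => ?_⟩
      obtain ⟨v, hv⟩ := hns c.re
      by_contra hcon
      push Not at hcon
      apply hv
      have h1 := hcon (cr _ ((Module.finBasis ℝ E).equivFun v))
      rw [Rx_apply, Lx_apply, mul_cr, Ln_repr] at h1
      apply (Module.finBasis ℝ E).equivFun.injective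
      rw [Lc_apply]
      ext i
      have h2 := congrArg Complex.re (congrFun h1 i)
      rw [map_smul]
      show (Module.finBasis ℝ E).equivFun ((hol z).linear v) i =
        c.re * (Module.finBasis ℝ E).equivFun v i
      have h3 : ((c • cr _ ((Module.finBasis ℝ E).equivFun v)) i).re =
          c.re * (Module.finBasis ℝ E).equivFun v i := by
        show (c * (((Module.finBasis ℝ E).equivFun v i : ℝ) : ℂ)).re = _
        rw [Complex.re_mul_ofReal]
      rw [← h3, ← h2]
      rfl)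
  obtain ⟨U, hU0, hU1, hU⟩ := real_sub hodd H W hW0 hW1 hW
  exact ⟨H, U, hH, hU0, hU1, hU⟩

/-- linear maps of determinant `± 1` near the identity which are scalar are the identity -/
theorem scalar_one (hpos : 0 < Module.finrank ℝ E) {B : E →L[ℝ] E} (hdet : |B.det| = 1)
    (hB : ‖B - 1‖ ≤ 1 / 16) {c : ℝ} (hc : ∀ v, B v = c • v) : B = 1 := by
  have : Nontrivial E := Module.nontrivial_of_finrank_pos hpos
  have h1 : B = c • (1 : E →L[ℝ] E) := by
    ext v; exact hc v
  have h2 : |c| = 1 := by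
    have h3 : B.det = c ^ Module.finrank ℝ E := by
      show LinearMap.det (B : E →ₗ[ℝ] E) = _
      have : (B : E →ₗ[ℝ] E) = c • LinearMap.id := by
        ext v; exact hc v
      rw [this, LinearMap.det_smul, LinearMap.det_id, mul_one]
    rw [h3, abs_pow] at hdet
    exact (pow_eq_one_iff_of_nonneg (abs_nonneg _) hpos.ne').1 hdet
  rcases eq_or_eq_neg_of_abs_eq h2 with h3 | h3
  · rw [h1, h3, one_smul]
  · exfalso
    rw [h1, h3] at hB
    have h4 : ((-1 : ℝ) • (1 : E →L[ℝ] E)) - 1 = (-2 : ℝ) • 1 := by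
      rw [show (-2 : ℝ) = -1 + -1 by norm_num, add_smul, neg_one_smul]
      abel
    rw [h4, norm_smul, norm_one] at hB
    norm_num at hB

end data

section main
variable {X Γ E : Type} [TopologicalSpace X] [T2Space X] [SecondCountableTopology X] [Nonempty X]
  [Group Γ] [MulAction Γ X] [NormedAddCommGroup E] [NormedSpace ℝ E] [FiniteDimensional ℝ E]
  {dev : X → E} {hol : Γ →* (E ≃ᵃ[ℝ] E)}

/-- a subgroup of translations in spanning directions has finite index -/
theorem finiteIndex_of_span (D : AffData X Γ E dev hol) (hinj : Function.Injective dev)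
    (K : Subgroup Γ) (htr : ∀ n ∈ K, ∀ p, hol n p = p + hol n 0)
    (hspan : Submodule.span ℝ ((fun n => hol n 0) '' (K : Set Γ)) = ⊤) : K.FiniteIndex := by
  classical
  obtain ⟨s, hs1, hs2, hs3⟩ := exists_linearIndependent ℝ ((fun n => hol n 0) '' (K : Set Γ))
  have hs : Finite s := hs3.finite
  have := Fintype.ofFinite s
  have htop : ⊤ ≤ Submodule.span ℝ (range ((↑) : s → E)) := by
    rw [Subtype.range_coe, hs2, hspan]
  let c := Module.Basis.mk hs3 htop
  have hc : ∀ i, c i = (i : E) := fun i => by simp [c]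
  have hadd : ∀ n ∈ K, ∀ m ∈ K, hol (n * m) 0 = hol n 0 + hol m 0 := by
    intro n hn m hm
    have h1 : hol (n * m) 0 = hol n (hol m 0) := by rw [map_mul]; rfl
    rw [h1, htr n hn, add_comm]
  let T : Submodule ℤ E := imL K (fun n => hol n 0) hadd
  have hT : Submodule.span ℤ (range c) ≤ T := by
    rw [Submodule.span_le]
    rintro _ ⟨i, rfl⟩
    rw [hc]
    exact hs1 i.2
  refine finiteIndex_of_cocompact D hinj K (∑ i, ‖c i‖) fun y => ?_
  have h1 : -(ZSpan.floor c y : E) ∈ T := hT (Submodule.neg_mem _ (ZSpan.floor c y).2)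
  obtain ⟨n, hn, hny⟩ := mem_imL.1 h1
  refine ⟨n, hn, ?_⟩
  have h2 : hol n 0 = -(ZSpan.floor c y : E) := hny
  rw [htr n hn, h2, ← sub_eq_add_neg, ← ZSpan.fract_apply]
  exact ZSpan.norm_fract_le c y

/-- virtually irreducible linear holonomy -/
def VIrr (hol : Γ →* (E ≃ᵃ[ℝ] E)) : Prop := ∀ H : Subgroup Γ, H.FiniteIndex →
  ∀ W : Submodule ℝ E, W ≠ ⊥ → W ≠ ⊤ → ∃ γ ∈ H, ∃ v ∈ W, (hol γ).linear v ∉ W

/-- a normal subgroup of elements with trivial linear part is finite -/
theorem ker_finite (D : AffData X Γ E dev hol) (hinj : Function.Injective dev)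
    (h2 : 2 ≤ Module.finrank ℝ E) (hirr : VIrr hol) (K : Subgroup Γ) (hKn : K.Normal)
    (hK : ∀ γ ∈ K, Lc hol γ = 1) : (K : Set Γ).Finite := by
  by_contra hinf
  obtain ⟨x0⟩ := (inferInstance : Nonempty X)
  have htr : ∀ n ∈ K, ∀ p, hol n p = p + hol n 0 := by
    intro n hn p
    rw [hol_eq, hK n hn]
    rfl
  obtain ⟨n0, hn0, hn0'⟩ : ∃ n ∈ K, hol n 0 ≠ 0 := by
    by_contra hcon
    push Not at hcon
    apply hinf
    refine (finite_fix D hinj x0).subset fun n hn => ?_
    show hol n (dev x0) = dev x0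
    rw [htr n hn, hcon n hn, add_zero]
  set U := Submodule.span ℝ ((fun n => hol n 0) '' (K : Set Γ)) with hU
  have hUinv : ∀ g : Γ, ∀ v ∈ U, (hol g).linear v ∈ U := by
    intro g v hv
    have h2 : U ≤ U.comap ((hol g).linear : E →ₗ[ℝ] E) := by
      rw [hU, Submodule.span_le]
      rintro _ ⟨n, hn, rfl⟩
      have hcn := hKn.conj_mem n hn g
      refine Submodule.subset_span ⟨g * n * g⁻¹, hcn, ?_⟩
      show hol (g * n * g⁻¹) 0 = (hol g).linear (hol n 0)
      have h3 := htr _ hcn (hol g 0)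
      have h5 : hol (g * n * g⁻¹) (hol g 0) = hol g (hol n 0) := by
        have e1 : hol (g * n * g⁻¹) (hol g 0) = hol (g * n * g⁻¹ * g) 0 := by
          rw [map_mul hol (g * n * g⁻¹) g]; rfl
        rw [e1, inv_mul_cancel_right, map_mul]; rfl
      rw [h5] at h3
      have h4 := hol_add (hol := hol) g 0 (hol n 0)
      rw [zero_add] at h4
      rw [h4] at h3
      exact (add_left_cancel h3).symm
    exact h2 hv
  have hUtop : U = ⊤ := by
    by_contra hne
    obtain ⟨γ, -, v, hv, hv'⟩ := hirr ⊤ inferInstance U (by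
      intro h0
      have h1 : hol n0 0 ∈ U := Submodule.subset_span ⟨n0, hn0, rfl⟩
      rw [h0] at h1
      exact hn0' ((Submodule.mem_bot ℝ).1 h1)) hne
    exact hv' (hUinv γ v hv)
  have hfi := finiteIndex_of_span D hinj K htr hUtop
  have : Nontrivial E := Module.nontrivial_of_finrank_pos (R := ℝ) (by omega)
  obtain ⟨v0, hv0⟩ := exists_ne (0 : E)
  obtain ⟨γ, hγ, v, hv, hv'⟩ := hirr K hfi (Submodule.span ℝ {v0})
    (by simpa using hv0) (by
      intro htop
      have h3 := finrank_span_le_card (R := ℝ) ({v0} : Set E)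
      rw [htop, finrank_top] at h3
      simp at h3
      omega)
  apply hv'
  have h3 : (hol γ).linear v = Lc hol γ v := rfl
  rw [h3, hK γ hγ]
  exact hv

/-- virtually irreducible linear holonomy is proper, in odd dimensions -/
theorem proper_of_irr (D : AffData X Γ E dev hol) (hinj : Function.Injective dev)
    (hodd : Odd (Module.finrank ℝ E)) (h2 : 2 ≤ Module.finrank ℝ E) (hirr : VIrr hol) (C : ℝ) :
    {γ : Γ | ‖Lc hol γ‖ ≤ C}.Finite := by
  by_contra hinf
  have hker : {γ : Γ | Lc hol γ = 1}.Finite :=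
    ker_finite D hinj h2 hirr (Lc hol).ker inferInstance fun γ hγ => hγ
  have hsmall := small_of_infinite (hol := hol) D.unimod hker hinf
  obtain ⟨N, hN, hc, z, hz, hz1, hz2⟩ := exists_normal D hinj hsmall
  obtain ⟨H, U, hH, hU0, hU1, hU⟩ := red_of_comm hodd N hN hc hz (by
    intro c
    by_contra hcon
    push Not at hcon
    exact hz1 (scalar_one (by omega) (D.unimod z) hz2 hcon))
  obtain ⟨γ, hγ, v, hv, hv'⟩ := hirr H hH U hU0 hU1
  exact hv' (hU γ hγ v hv)

end main

end Pool.Agent.Helper23N
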