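import Pool.Agent.Helper23M.Fix
import Pool.Agent.Y449.MS.M2

/-!
Properness of the linear holonomy: small linear parts generate, up to commutation, a normal
subgroup.
-/

set_option autoImplicit false

open Set Filter Topology Metric
open Pool.Agent.W689.Mk Pool.Agent.Helper23M

namespace Pool.Agent.Helper23N

section comm
variable {Γ A : Type} [Group Γ] [NormedRing A] [NormOneClass A]

/-- iterated commutators of the elements of a set -/
def CS (S : Set Γ) : ℕ → Set Γ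
  | 0 => S
  | k + 1 => {z | ∃ s ∈ S, ∃ c ∈ CS S k, z = s * c * s⁻¹ * c⁻¹}

theorem CS_bound (M : Γ →* A) {S : Set Γ} (hS : ∀ s ∈ S, ‖M s - 1‖ ≤ 1 / 16) (k : ℕ) :
    ∀ c ∈ CS S k, ‖M c - 1‖ ≤ 1 / 16 * (1 / 2) ^ k := by
  induction k with
  | zero =>
    intro c hc
    simpa using hS c hc
  | succ k ih =>
    rintro z ⟨s, hs, c, hc, rfl⟩
    have h1 := ih c hc
    have h2 : ‖M c - 1‖ ≤ 1 / 4 := by
      refine h1.trans ?_
      have : ((1 : ℝ) / 2) ^ k ≤ 1 := pow_le_one₀ (by norm_num) (by norm_num)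
      linarith
    refine (comm_bound M (hS s hs) h2).trans ?_
    rw [pow_succ]
    linarith

theorem CS_closure {S : Set Γ} (k : ℕ) : ∀ c ∈ CS S k, c ∈ Subgroup.closure S := by
  induction k with
  | zero => exact fun c hc => Subgroup.subset_closure hc
  | succ k ih =>
    rintro z ⟨s, hs, c, hc, rfl⟩
    have h1 := Subgroup.subset_closure hs
    have h2 := ih c hc
    exact Subgroup.mul_mem _ (Subgroup.mul_mem _ (Subgroup.mul_mem _ h1 h2)
      (Subgroup.inv_mem _ h1)) (Subgroup.inv_mem _ h2)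

end comm

section lin
variable {Γ E : Type} [Group Γ] [NormedAddCommGroup E] [NormedSpace ℝ E] [FiniteDimensional ℝ E]
  (hol : Γ →* (E ≃ᵃ[ℝ] E))

/-- the linear holonomy -/
noncomputable def Lc : Γ →* (E →L[ℝ] E) where
  toFun γ := LinearMap.toContinuousLinearMap ((hol γ).linear : E →ₗ[ℝ] E)
  map_one' := by
    ext v
    show (hol 1).linear v = v
    rw [map_one]; rfl
  map_mul' γ δ := by
    ext v
    exact lin_mul (hol := hol) γ δ v

theorem Lc_apply (γ : Γ) (v : E) : Lc hol γ v = (hol γ).linear v := rfl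

theorem Lc_inv (γ : Γ) : Lc hol γ * Lc hol γ⁻¹ = 1 := by
  rw [← map_mul, mul_inv_cancel, map_one]

theorem Lc_inv' (γ : Γ) : Lc hol γ⁻¹ * Lc hol γ = 1 := by
  rw [← map_mul, inv_mul_cancel, map_one]

theorem hol_eq (γ : Γ) (p : E) : hol γ p = Lc hol γ p + hol γ 0 := by
  have h1 := hol_add (hol := hol) γ 0 p
  rw [zero_add] at h1
  rw [h1, add_comm]
  rfl

/-- the affine holonomy, rescaled -/
noncomputable def Mt (t : ℝ) : Γ →* ((E × ℝ) →L[ℝ] (E × ℝ)) where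
  toFun γ := ((Lc hol γ).comp (ContinuousLinearMap.fst ℝ E ℝ) +
    (ContinuousLinearMap.snd ℝ E ℝ).smulRight (t • hol γ 0)).prod (ContinuousLinearMap.snd ℝ E ℝ)
  map_one' := by
    refine ContinuousLinearMap.ext fun q => ?_
    refine Prod.ext ?_ rfl
    show Lc hol 1 q.1 + q.2 • (t • hol 1 0) = q.1
    rw [map_one, map_one]
    show q.1 + q.2 • (t • (0 : E)) = q.1
    rw [smul_zero, smul_zero, add_zero]
  map_mul' γ δ := by
    refine ContinuousLinearMap.ext fun q => ?_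
    refine Prod.ext ?_ rfl
    show Lc hol (γ * δ) q.1 + q.2 • (t • hol (γ * δ) 0) =
      Lc hol γ (Lc hol δ q.1 + q.2 • (t • hol δ 0)) + q.2 • (t • hol γ 0)
    have h1 : hol (γ * δ) 0 = hol γ (hol δ 0) := by rw [map_mul]; rfl
    rw [h1, hol_eq hol γ (hol δ 0), map_mul, map_add, map_smul, map_smul, smul_add, smul_add,
      ← add_assoc]
    rfl

theorem Mt_apply (t : ℝ) (γ : Γ) (q : E × ℝ) :
    Mt hol t γ q = (Lc hol γ q.1 + q.2 • (t • hol γ 0), q.2) := rfl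

theorem Mt_le (t : ℝ) (γ : Γ) : ‖Mt hol t γ - 1‖ ≤ ‖Lc hol γ - 1‖ + |t| * ‖hol γ 0‖ := by
  refine ContinuousLinearMap.opNorm_le_bound _ (by positivity) fun q => ?_
  have h1 : (Mt hol t γ - 1) q = ((Lc hol γ - 1) q.1 + q.2 • (t • hol γ 0), (0 : ℝ)) := by
    show Mt hol t γ q - q = _
    rw [Mt_apply]
    refine Prod.ext ?_ ?_
    · show Lc hol γ q.1 + q.2 • (t • hol γ 0) - q.1 = (Lc hol γ q.1 - q.1) + q.2 • (t • hol γ 0)
      abel
    · show q.2 - q.2 = 0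
      exact sub_self _
  rw [h1, Prod.norm_mk, norm_zero, max_eq_left (norm_nonneg _)]
  calc ‖(Lc hol γ - 1) q.1 + q.2 • (t • hol γ 0)‖
      ≤ ‖(Lc hol γ - 1) q.1‖ + ‖q.2 • (t • hol γ 0)‖ := norm_add_le _ _
    _ ≤ ‖Lc hol γ - 1‖ * ‖q.1‖ + ‖q.2‖ * (|t| * ‖hol γ 0‖) := by
        rw [norm_smul, norm_smul, Real.norm_eq_abs t]
        gcongr
        exact (Lc hol γ - 1).le_opNorm _
    _ ≤ ‖Lc hol γ - 1‖ * ‖q‖ + ‖q‖ * (|t| * ‖hol γ 0‖) := by
        gcongr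
        · exact norm_fst_le q
        · exact norm_snd_le q
    _ = _ := by ring

theorem le_Mt (t : ℝ) (γ : Γ) : ‖Lc hol γ - 1‖ ≤ ‖Mt hol t γ - 1‖ := by
  refine ContinuousLinearMap.opNorm_le_bound _ (norm_nonneg _) fun v => ?_
  have h1 := (Mt hol t γ - 1).le_opNorm (v, 0)
  have h2 : (Mt hol t γ - 1) (v, 0) = ((Lc hol γ - 1) v, (0 : ℝ)) := by
    show Mt hol t γ (v, 0) - (v, 0) = _
    rw [Mt_apply]
    refine Prod.ext ?_ ?_
    · show Lc hol γ v + (0 : ℝ) • (t • hol γ 0) - v = Lc hol γ v - v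
      rw [zero_smul, add_zero]
    · show (0 : ℝ) - 0 = 0
      exact sub_self _
  rw [h2, Prod.norm_mk, Prod.norm_mk, norm_zero, max_eq_left (norm_nonneg _),
    max_eq_left (norm_nonneg _)] at h1
  exact h1

theorem le_Mt' (t : ℝ) (γ : Γ) : |t| * ‖hol γ 0‖ ≤ ‖Mt hol t γ - 1‖ := by
  have h1 := (Mt hol t γ - 1).le_opNorm (0, 1)
  have h2 : (Mt hol t γ - 1) (0, 1) = (t • hol γ 0, (0 : ℝ)) := by
    show Mt hol t γ (0, 1) - (0, 1) = _
    rw [Mt_apply]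
    refine Prod.ext ?_ ?_
    · show Lc hol γ 0 + (1 : ℝ) • (t • hol γ 0) - 0 = t • hol γ 0
      rw [map_zero, one_smul, zero_add, sub_zero]
    · show (1 : ℝ) - 1 = 0
      exact sub_self _
  rw [h2, Prod.norm_mk, Prod.norm_mk, norm_zero, norm_zero, norm_one,
    max_eq_left (norm_nonneg _), max_eq_right zero_le_one, mul_one, norm_smul,
    Real.norm_eq_abs] at h1
  exact h1

/-- the centralizer of linear parts -/
def Zc (T : Set Γ) : Submodule ℝ (E →L[ℝ] E) where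
  carrier := {x | ∀ γ ∈ T, x * Lc hol γ = Lc hol γ * x}
  add_mem' := by
    intro x y hx hy γ hγ
    rw [add_mul, mul_add, hx γ hγ, hy γ hγ]
  zero_mem' := by
    intro γ _
    rw [zero_mul, mul_zero]
  smul_mem' := by
    intro c x hx γ hγ
    rw [smul_mul_assoc, mul_smul_comm, hx γ hγ]

variable {hol}

theorem mem_Zc {T : Set Γ} {x : E →L[ℝ] E} :
    x ∈ Zc hol T ↔ ∀ γ ∈ T, x * Lc hol γ = Lc hol γ * x := Iff.rfl

theorem Zc_anti {T T' : Set Γ} (h : T ⊆ T') : Zc hol T' ≤ Zc hol T :=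
  fun _ hx γ hγ => hx γ (h hγ)

/-- centralizers are finitely determined -/
theorem Zc_finite (T : Set Γ) : ∃ S : Finset Γ, (S : Set Γ) ⊆ T ∧ Zc hol (S : Set Γ) = Zc hol T := by
  classical
  have hex : ∃ m : ℕ, ∃ S : Finset Γ, (S : Set Γ) ⊆ T ∧
      Module.finrank ℝ (Zc hol (S : Set Γ)) = m := ⟨_, ∅, by simp, rfl⟩
  obtain ⟨S, hST, hS⟩ := Nat.find_spec hex
  refine ⟨S, hST, le_antisymm ?_ (Zc_anti hST)⟩
  intro x hx γ hγ
  have h1 : Zc hol ((insert γ S : Finset Γ) : Set Γ) ≤ Zc hol (S : Set Γ) :=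
    Zc_anti (by simp)
  have h2 : Nat.find hex ≤ Module.finrank ℝ (Zc hol ((insert γ S : Finset Γ) : Set Γ)) :=
    Nat.find_min' hex ⟨insert γ S, by
      rw [Finset.coe_insert]
      exact insert_subset hγ hST, rfl⟩
  have h3 := Submodule.eq_of_le_of_finrank_le h1 (by rw [hS]; exact h2)
  rw [← h3] at hx
  exact hx γ (by simp)

/-- elements with small linear part -/
def Gk (hol : Γ →* (E ≃ᵃ[ℝ] E)) (k : ℕ) : Set Γ := {γ | ‖Lc hol γ - 1‖ < 1 / ((k : ℝ) + 33)}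

theorem Gk_anti {k m : ℕ} (h : k ≤ m) : Gk hol m ⊆ Gk hol k := by
  intro γ hγ
  have h1 : ‖Lc hol γ - 1‖ < 1 / ((m : ℝ) + 33) := hγ
  have h2 : (1 : ℝ) / ((m : ℝ) + 33) ≤ 1 / ((k : ℝ) + 33) := by
    apply one_div_le_one_div_of_le (by positivity)
    have : (k : ℝ) ≤ m := by exact_mod_cast h
    linarith
  exact lt_of_lt_of_le h1 h2

theorem Zc_stable : ∃ n : ℕ, ∀ m, n ≤ m → Zc hol (Gk hol n) = Zc hol (Gk hol m) := by
  let f : ℕ →o Submodule ℝ (E →L[ℝ] E) :=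
    ⟨fun k => Zc hol (Gk hol k), fun k m h => Zc_anti (Gk_anti h)⟩
  exact monotone_stabilizes_iff_noetherian.2 inferInstance f

theorem Zc_conj {n : ℕ} (hn : ∀ m, n ≤ m → Zc hol (Gk hol n) = Zc hol (Gk hol m)) (g : Γ)
    {x : E →L[ℝ] E} (hx : x ∈ Zc hol (Gk hol n)) :
    Lc hol g * x * Lc hol g⁻¹ ∈ Zc hol (Gk hol n) := by
  obtain ⟨m, hm⟩ := exists_nat_gt ((‖Lc hol g⁻¹‖ * ‖Lc hol g‖ + 1) * ((n : ℝ) + 33))
  have hnm : n ≤ m := by
    have h1 : ((n : ℝ)) ≤ m := by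
      have h2 : 0 ≤ ‖Lc hol g⁻¹‖ * ‖Lc hol g‖ := by positivity
      have h3 : (0 : ℝ) ≤ n := Nat.cast_nonneg n
      nlinarith
    exact_mod_cast h1
  rw [hn m hnm]
  intro δ hδ
  have h1 : g⁻¹ * δ * g ∈ Gk hol n := by
    show ‖Lc hol (g⁻¹ * δ * g) - 1‖ < 1 / ((n : ℝ) + 33)
    have e : Lc hol (g⁻¹ * δ * g) - 1 = Lc hol g⁻¹ * (Lc hol δ - 1) * Lc hol g := by
      rw [mul_sub, mul_one, sub_mul, Lc_inv', map_mul, map_mul]
    have h2 : ‖Lc hol δ - 1‖ < 1 / ((m : ℝ) + 33) := hδ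
    rw [e]
    have h3 : ‖Lc hol g⁻¹ * (Lc hol δ - 1) * Lc hol g‖ ≤
        ‖Lc hol g⁻¹‖ * ‖Lc hol g‖ * ‖Lc hol δ - 1‖ := by
      refine (norm_mul_le _ _).trans ?_
      calc ‖Lc hol g⁻¹ * (Lc hol δ - 1)‖ * ‖Lc hol g‖
          ≤ (‖Lc hol g⁻¹‖ * ‖Lc hol δ - 1‖) * ‖Lc hol g‖ := by
            gcongr
            exact norm_mul_le _ _
        _ = _ := by ring
    refine lt_of_le_of_lt h3 ?_
    have hp : (0 : ℝ) < (n : ℝ) + 33 := by positivity
    have hq : (0 : ℝ) < (m : ℝ) + 33 := by positivity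
    rw [lt_div_iff₀ hp]
    have h4 : ‖Lc hol g⁻¹‖ * ‖Lc hol g‖ * ‖Lc hol δ - 1‖ * ((n : ℝ) + 33) ≤
        ‖Lc hol g⁻¹‖ * ‖Lc hol g‖ * (1 / ((m : ℝ) + 33)) * ((n : ℝ) + 33) := by gcongr
    refine lt_of_le_of_lt h4 ?_
    have h5 : ‖Lc hol g⁻¹‖ * ‖Lc hol g‖ * (1 / ((m : ℝ) + 33)) * ((n : ℝ) + 33) =
        (‖Lc hol g⁻¹‖ * ‖Lc hol g‖ * ((n : ℝ) + 33)) / ((m : ℝ) + 33) := by ring
    rw [h5, div_lt_one hq]
    nlinarith
  have h2 := hx _ h1
  rw [map_mul, map_mul] at h2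
  calc Lc hol g * x * Lc hol g⁻¹ * Lc hol δ
      = Lc hol g * (x * (Lc hol g⁻¹ * Lc hol δ * Lc hol g)) * Lc hol g⁻¹ := by
        have e : Lc hol g * (x * (Lc hol g⁻¹ * Lc hol δ * Lc hol g)) * Lc hol g⁻¹ =
          Lc hol g * x * Lc hol g⁻¹ * Lc hol δ * (Lc hol g * Lc hol g⁻¹) := by
            simp only [mul_assoc]
        rw [e, Lc_inv, mul_one]
    _ = Lc hol g * ((Lc hol g⁻¹ * Lc hol δ * Lc hol g) * x) * Lc hol g⁻¹ := by rw [h2]
    _ = (Lc hol g * Lc hol g⁻¹) * Lc hol δ * (Lc hol g * x * Lc hol g⁻¹) := by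
        simp only [mul_assoc]
    _ = Lc hol δ * (Lc hol g * x * Lc hol g⁻¹) := by rw [Lc_inv, one_mul]

end lin

section data
variable {X Γ E : Type} [TopologicalSpace X] [T2Space X] [SecondCountableTopology X] [Nonempty X]
  [Group Γ] [MulAction Γ X] [NormedAddCommGroup E] [NormedSpace ℝ E] [FiniteDimensional ℝ E]
  {dev : X → E} {hol : Γ →* (E ≃ᵃ[ℝ] E)}

/-- the affine holonomy is discrete -/
theorem hol_disc (D : AffData X Γ E dev hol) (hinj : Function.Injective dev) {t : ℝ} (ht : 0 < t) :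
    ∃ η : ℝ, 0 < η ∧ ∀ γ : Γ, ‖Mt hol t γ - 1‖ < η → Lc hol γ = 1 := by
  by_contra hcon
  push Not at hcon
  have h1 : ∀ k : ℕ, ∃ γ : Γ, ‖Mt hol t γ - 1‖ < 1 / ((k : ℝ) + 1) ∧ Lc hol γ ≠ 1 :=
    fun k => hcon _ (by positivity)
  choose γ hγ hγ1 using h1
  obtain ⟨x0⟩ := (inferInstance : Nonempty X)
  have hlim : Tendsto (fun k => ‖Mt hol t (γ k) - 1‖) atTop (𝓝 0) :=
    squeeze_zero (fun _ => norm_nonneg _) (fun k => (hγ k).le) tendsto_one_div_add_atTop_nhds_zero_nat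
  have hL : Tendsto (fun k => ‖Lc hol (γ k) - 1‖) atTop (𝓝 0) :=
    squeeze_zero (fun _ => norm_nonneg _) (fun k => le_Mt hol t (γ k)) hlim
  have hu : Tendsto (fun k => ‖hol (γ k) 0‖) atTop (𝓝 0) := by
    refine squeeze_zero (fun _ => norm_nonneg _) (g := fun k => t⁻¹ * ‖Mt hol t (γ k) - 1‖)
      (fun k => ?_) (by simpa using hlim.const_mul t⁻¹)
    have h2 := le_Mt' hol t (γ k)
    rw [abs_of_pos ht] at h2
    calc ‖hol (γ k) 0‖ = t⁻¹ * (t * ‖hol (γ k) 0‖) := by field_simp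
      _ ≤ t⁻¹ * ‖Mt hol t (γ k) - 1‖ := by gcongr
  have hp : Tendsto (fun k => hol (γ k) (dev x0)) atTop (𝓝 (dev x0)) := by
    rw [tendsto_iff_norm_sub_tendsto_zero]
    refine squeeze_zero (fun _ => norm_nonneg _)
      (g := fun k => ‖Lc hol (γ k) - 1‖ * ‖dev x0‖ + ‖hol (γ k) 0‖) (fun k => ?_) ?_
    · rw [hol_eq hol (γ k) (dev x0)]
      have e : Lc hol (γ k) (dev x0) + hol (γ k) 0 - dev x0 =
          (Lc hol (γ k) - 1) (dev x0) + hol (γ k) 0 := by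
        show _ = (Lc hol (γ k) (dev x0) - dev x0) + hol (γ k) 0
        abel
      rw [e]
      exact (norm_add_le _ _).trans (add_le_add ((Lc hol (γ k) - 1).le_opNorm _) le_rfl)
    · simpa using (hL.mul_const ‖dev x0‖).add hu
  obtain ⟨g, hg⟩ := freq_of_tendsto D hinj x0 hp
  have hg1 : Lc hol g = 1 := by
    by_contra hne
    have hpos : 0 < ‖Lc hol g - 1‖ := norm_pos_iff.2 (sub_ne_zero.2 hne)
    have h3 : ∀ᶠ k in atTop, ‖Lc hol (γ k) - 1‖ < ‖Lc hol g - 1‖ := hL.eventually_lt_const hpos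
    obtain ⟨k, hk1, hk2⟩ := (hg.and_eventually h3).exists
    rw [hk1] at hk2
    exact lt_irrefl _ hk2
  obtain ⟨k, hk⟩ := hg.exists
  exact hγ1 k (by rw [hk]; exact hg1)

/-- finite sets of elements with small linear part generate groups with nontrivial central linear
parts -/
theorem exists_central (D : AffData X Γ E dev hol) (hinj : Function.Injective dev) (S : Finset Γ)
    (hS : ∀ s ∈ S, ‖Lc hol s - 1‖ ≤ 1 / 32) (hne : ∃ s ∈ S, Lc hol s ≠ 1) :
    ∃ z ∈ Subgroup.closure (S : Set Γ), Lc hol z ≠ 1 ∧ ‖Lc hol z - 1‖ ≤ 1 / 16 ∧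
      ∀ s ∈ S, Lc hol z * Lc hol s = Lc hol s * Lc hol z := by
  classical
  let t : ℝ := 1 / (32 * (1 + ∑ s ∈ S, ‖hol s 0‖))
  have hsum : 0 ≤ ∑ s ∈ S, ‖hol s 0‖ := Finset.sum_nonneg fun _ _ => norm_nonneg _
  have ht : 0 < t := by positivity
  have hSt : ∀ s ∈ (S : Set Γ), ‖Mt hol t s - 1‖ ≤ 1 / 16 := by
    intro s hs
    have h1 : ‖hol s 0‖ ≤ ∑ s ∈ S, ‖hol s 0‖ :=
      Finset.single_le_sum (f := fun s => ‖hol s 0‖) (fun _ _ => norm_nonneg _) hs
    have h2 : |t| * ‖hol s 0‖ ≤ 1 / 32 := by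
      rw [abs_of_pos ht]
      show 1 / (32 * (1 + ∑ s ∈ S, ‖hol s 0‖)) * ‖hol s 0‖ ≤ 1 / 32
      rw [div_mul_eq_mul_div, one_mul, div_le_iff₀ (by positivity)]
      linarith
    have h3 := Mt_le hol t s
    have h4 := hS s hs
    linarith
  obtain ⟨η, hη, hη'⟩ := hol_disc D hinj ht
  have hex : ∃ k : ℕ, ∀ c ∈ CS (S : Set Γ) k, Lc hol c = 1 := by
    obtain ⟨k, hk⟩ := exists_pow_lt_of_lt_one hη (y := (1 / 2 : ℝ)) (by norm_num)
    refine ⟨k, fun c hc => hη' c ?_⟩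
    have h1 := CS_bound (Mt hol t) hSt k c hc
    have h2 : (0 : ℝ) ≤ (1 / 2) ^ k := by positivity
    linarith
  have h0 : Nat.find hex ≠ 0 := by
    intro h0
    have h1 := Nat.find_spec hex
    rw [h0] at h1
    obtain ⟨s, hs, hs1⟩ := hne
    exact hs1 (h1 s hs)
  obtain ⟨j, hj⟩ := Nat.exists_eq_succ_of_ne_zero h0
  have h1 : ¬ ∀ c ∈ CS (S : Set Γ) j, Lc hol c = 1 :=
    Nat.find_min hex (by rw [hj]; exact Nat.lt_succ_self j)
  push Not at h1
  obtain ⟨z, hz, hz1⟩ := h1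
  refine ⟨z, CS_closure j z hz, hz1, ?_, fun s hs => ?_⟩
  · refine (le_Mt hol t z).trans ((CS_bound (Mt hol t) hSt j z hz).trans ?_)
    have : ((1 : ℝ) / 2) ^ j ≤ 1 := pow_le_one₀ (by norm_num) (by norm_num)
    linarith
  · have h2 := Nat.find_spec hex
    rw [hj] at h2
    have h3 := h2 (s * z * s⁻¹ * z⁻¹) ⟨s, hs, z, hz, rfl⟩
    have h4 : s * z * s⁻¹ * z⁻¹ * (z * s) = s * z := by group
    have h5 : Lc hol (s * z) = Lc hol (z * s) := by
      rw [← h4, map_mul, h3, one_mul]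
    rw [map_mul, map_mul] at h5
    exact h5.symm

/-- if there are arbitrarily small linear parts, there is a normal subgroup with commuting linear
parts which are not trivial -/
theorem exists_normal (D : AffData X Γ E dev hol) (hinj : Function.Injective dev)
    (hsmall : ∀ ε : ℝ, 0 < ε → ∃ δ : Γ, ‖Lc hol δ - 1‖ < ε ∧ Lc hol δ ≠ 1) :
    ∃ N : Subgroup Γ, N.Normal ∧
      (∀ a ∈ N, ∀ b ∈ N, Lc hol a * Lc hol b = Lc hol b * Lc hol a) ∧
      ∃ z ∈ N, Lc hol z ≠ 1 ∧ ‖Lc hol z - 1‖ ≤ 1 / 16 := by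
  classical
  obtain ⟨n, hn⟩ := Zc_stable (hol := hol)
  obtain ⟨S, hSG, hS⟩ := Zc_finite (hol := hol) (Gk hol n)
  obtain ⟨δ, hδ, hδ1⟩ := hsmall (1 / ((n : ℝ) + 33)) (by positivity)
  have hS'G : ((insert δ S : Finset Γ) : Set Γ) ⊆ Gk hol n := by
    rw [Finset.coe_insert]
    exact insert_subset hδ hSG
  have hS' : Zc hol ((insert δ S : Finset Γ) : Set Γ) = Zc hol (Gk hol n) := by
    refine le_antisymm ?_ (Zc_anti hS'G)
    rw [← hS]
    exact Zc_anti (by simp)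
  have hb : (1 : ℝ) / ((n : ℝ) + 33) ≤ 1 / 32 := by
    apply one_div_le_one_div_of_le (by norm_num)
    have : (0 : ℝ) ≤ n := Nat.cast_nonneg n
    linarith
  obtain ⟨z, hz, hz1, hz2, hz3⟩ := exists_central D hinj (insert δ S)
    (fun s hs => ((hS'G hs : ‖Lc hol s - 1‖ < _).le).trans hb)
    ⟨δ, Finset.mem_insert_self _ _, hδ1⟩
  set Z := Zc hol (Gk hol n) with hZ
  have hcancel : ∀ (g : Γ) (x : E →L[ℝ] E), x * Lc hol g = Lc hol g * x →
      x * Lc hol g⁻¹ = Lc hol g⁻¹ * x := by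
    intro g x hx
    calc x * Lc hol g⁻¹ = Lc hol g⁻¹ * (Lc hol g * x) * Lc hol g⁻¹ := by
          rw [← mul_assoc (Lc hol g⁻¹), Lc_inv', one_mul]
      _ = Lc hol g⁻¹ * (x * Lc hol g) * Lc hol g⁻¹ := by rw [hx]
      _ = Lc hol g⁻¹ * x * (Lc hol g * Lc hol g⁻¹) := by simp only [mul_assoc]
      _ = _ := by rw [Lc_inv, mul_one]
  let N : Subgroup Γ :=
    { carrier := {γ | Lc hol γ ∈ Z ∧ ∀ x ∈ Z, x * Lc hol γ = Lc hol γ * x}
      mul_mem' := by
        rintro a b ⟨ha, ha'⟩ ⟨hb, hb'⟩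
        refine ⟨fun η hη => ?_, fun x hx => ?_⟩
        · rw [map_mul, mul_assoc, hb η hη, ← mul_assoc, ha η hη, mul_assoc]
        · rw [map_mul, ← mul_assoc, ha' x hx, mul_assoc, hb' x hx, ← mul_assoc]
      one_mem' := by
        refine ⟨fun η _ => ?_, fun x _ => ?_⟩
        · rw [map_one, one_mul, mul_one]
        · rw [map_one, one_mul, mul_one]
      inv_mem' := by
        rintro a ⟨ha, ha'⟩
        refine ⟨fun η hη => (hcancel a (Lc hol η) ?_).symm, fun x hx => hcancel a x (ha' x hx)⟩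
        exact (ha η hη).symm }
  have hNm : ∀ γ, γ ∈ N ↔ Lc hol γ ∈ Z ∧ ∀ x ∈ Z, x * Lc hol γ = Lc hol γ * x := fun γ => Iff.rfl
  refine ⟨N, ⟨fun γ hγ g => ?_⟩, fun a ha b hb => hb.2 _ ha.1, z, ⟨?_, ?_⟩, hz1, hz2⟩
  · have e : Lc hol (g * γ * g⁻¹) = Lc hol g * Lc hol γ * Lc hol g⁻¹ := by
      rw [map_mul, map_mul]
    refine (hNm _).2 ⟨?_, fun x hx => ?_⟩
    · rw [e]
      exact Zc_conj hn g hγ.1
    · have h1 := Zc_conj hn g⁻¹ hx
      rw [inv_inv] at h1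
      have h2 := hγ.2 _ h1
      rw [e]
      calc x * (Lc hol g * Lc hol γ * Lc hol g⁻¹)
          = Lc hol g * ((Lc hol g⁻¹ * x * Lc hol g) * Lc hol γ) * Lc hol g⁻¹ := by
            have e2 : Lc hol g * ((Lc hol g⁻¹ * x * Lc hol g) * Lc hol γ) * Lc hol g⁻¹ =
              (Lc hol g * Lc hol g⁻¹) * (x * (Lc hol g * Lc hol γ * Lc hol g⁻¹)) := by
                simp only [mul_assoc]
            rw [e2, Lc_inv, one_mul]
        _ = Lc hol g * (Lc hol γ * (Lc hol g⁻¹ * x * Lc hol g)) * Lc hol g⁻¹ := by rw [h2]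
        _ = (Lc hol g * Lc hol γ * Lc hol g⁻¹) * x * (Lc hol g * Lc hol g⁻¹) := by
            simp only [mul_assoc]
        _ = _ := by rw [Lc_inv, mul_one]
  · show Lc hol z ∈ Z
    rw [← hS']
    intro s hs
    exact hz3 s hs
  · intro x hx
    rw [← hS'] at hx
    -- the elements commuting with `x` form a subgroup
    let Q : Subgroup Γ :=
      { carrier := {γ | x * Lc hol γ = Lc hol γ * x}
        mul_mem' := by
          intro a b ha hb
          have ha' : x * Lc hol a = Lc hol a * x := ha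
          have hb' : x * Lc hol b = Lc hol b * x := hb
          show x * Lc hol (a * b) = Lc hol (a * b) * x
          rw [map_mul, ← mul_assoc, ha', mul_assoc, hb', ← mul_assoc]
        one_mem' := by
          show x * Lc hol 1 = Lc hol 1 * x
          rw [map_one, one_mul, mul_one]
        inv_mem' := by
          intro a ha
          exact hcancel a x ha }
    have h1 : Subgroup.closure ((insert δ S : Finset Γ) : Set Γ) ≤ Q := by
      rw [Subgroup.closure_le]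
      intro s hs
      exact hx s hs
    exact h1 hz

end data

end Pool.Agent.Helper23N
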